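import Pool.Agent.R244.LZ.Sel

/-!
# Project LZ: assembly, part 1: the measures and their heat flow
-/

set_option autoImplicit false

open MeasureTheory Filter Topology
open scoped BigOperators Real ENNReal

namespace Pool.Agent.R244.LZ.Asm

open Pool.Agent.R244.LZ

lemma length_words {k : ℕ} {w : List Bool} (h : w ∈ words k) : w.length = k := by
  induction k generalizing w with
  | zero => simp [words] at h; simp [h]
  | succ k ih =>
    simp only [words, Finset.mem_union, Finset.mem_image] at h
    rcases h with ⟨v, hv, rfl⟩ | ⟨v, hv, rfl⟩ <;> simp [ih hv]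

lemma sum_words_succ {M : Type*} [AddCommMonoid M] (f : List Bool → M) (k : ℕ) :
    ∑ w ∈ words (k + 1), f w = ∑ w ∈ words k, (f (false :: w) + f (true :: w)) := by
  have hd : Disjoint ((words k).image (List.cons false)) ((words k).image (List.cons true)) := by
    rw [Finset.disjoint_left]
    intro w h1 h2
    rw [Finset.mem_image] at h1 h2
    obtain ⟨u, _, rfl⟩ := h1
    obtain ⟨v, _, h⟩ := h2
    simp at h
  rw [words, Finset.sum_union hd, Finset.sum_image (fun a _ b _ h => by simpa using h),
    Finset.sum_image (fun a _ b _ h => by simpa using h), Finset.sum_add_distrib]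

lemma sum_mart (a : List Bool → ℝ) (ha : ∀ w, a (false :: w) + a (true :: w) = 2 * a w) (k : ℕ) :
    ∑ w ∈ words k, a w = 2 ^ k * a [] := by
  induction k with
  | zero => simp [words]
  | succ k ih =>
    rw [sum_words_succ]
    simp_rw [ha]
    rw [← Finset.mul_sum, ih]; ring

lemma ch_norm {d : ℕ} (x ξ : E d) : ‖ch x ξ‖ = 1 := by
  unfold ch; exact Complex.norm_exp_ofReal_mul_I _

lemma heat_nonneg {d : ℕ} {t : ℝ} (ht : 0 < t) (x : E d) : 0 ≤ heat t x := by
  unfold heat; positivity

lemma heat_le {d : ℕ} {t : ℝ} (ht : 0 < t) (x : E d) : heat t x ≤ (4 * π * t) ^ (-(d : ℝ) / 2) := by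
  unfold heat
  have : Real.exp (-‖x‖ ^ 2 / (4 * t)) ≤ 1 := by
    apply Real.exp_le_one_iff.mpr
    apply div_nonpos_of_nonpos_of_nonneg
    · have := sq_nonneg ‖x‖; linarith
    · positivity
  calc (4 * π * t) ^ (-(d : ℝ) / 2) * Real.exp (-‖x‖ ^ 2 / (4 * t))
      ≤ (4 * π * t) ^ (-(d : ℝ) / 2) * 1 := by gcongr
    _ = _ := mul_one _

lemma continuous_heat {d : ℕ} (t : ℝ) : Continuous (heat t : E d → ℝ) := by
  unfold heat; fun_prop

section

variable {d : ℕ} [NeZero d]

lemma vol_fin (h4 : Stm4) (w : List Bool) : volume (RR w : Set (E d)) ≠ ⊤ := by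
  rw [((h4 d).1 w).2.1]; exact ENNReal.ofReal_ne_top

lemma vol_real (h4 : Stm4) (w : List Bool) :
    (volume (RR w : Set (E d))).toReal = (1 / 2) ^ w.length := by
  rw [((h4 d).1 w).2.1, ENNReal.toReal_ofReal (by positivity)]

/-- signed measures with a dyadic density -/
lemma dens (h4 : Stm4) (h8 : Stm8) (A : List Bool → ℝ) (N : ℕ) : ∃ μ : SignedMeasure (E d),
    μ.totalVariation Set.univ ≤ ENNReal.ofReal ((1 / 2) ^ N * ∑ w ∈ words N, |A w|) ∧
    ∀ φ : E d → ℂ, Continuous φ → (∃ B, ∀ x, ‖φ x‖ ≤ B) →
      sint μ φ = ∑ w ∈ words N, (A w : ℂ) * ∫ y in RR w, φ y := by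
  set f : E d → ℝ := fun y => ∑ w ∈ words N, (RR w : Set (E d)).indicator (fun _ => A w) y with hf
  have hm : ∀ w, MeasurableSet (RR w : Set (E d)) := fun w => ((h4 d).1 w).1
  have hi : ∀ w (a : ℝ), Integrable ((RR w : Set (E d)).indicator (fun _ => a)) := by
    intro w a
    exact (integrableOn_const (vol_fin h4 w)).integrable_indicator (hm w)
  have hfi : Integrable f := integrable_finsetSum _ fun w _ => hi w _
  have hfm : Measurable f := by
    apply Finset.measurable_fun_sum
    intro w _
    exact measurable_const.indicator (hm w)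
  obtain ⟨μ, h1, h2⟩ := h8 d f hfm hfi
  refine ⟨μ, ?_, ?_⟩
  · rw [h1]
    apply ENNReal.ofReal_le_ofReal
    calc ∫ x, |f x| ≤ ∫ x, ∑ w ∈ words N, (RR w : Set (E d)).indicator (fun _ => |A w|) x := by
          apply integral_mono hfi.abs (integrable_finsetSum _ fun w _ => hi w _)
          intro x
          simp only [hf]
          refine (Finset.abs_sum_le_sum_abs _ _).trans ?_
          apply Finset.sum_le_sum
          intro w _
          by_cases hx : x ∈ (RR w : Set (E d))
          · simp [hx]
          · simp [hx]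
      _ = ∑ w ∈ words N, |A w| * (1 / 2) ^ w.length := by
          rw [integral_finsetSum _ fun w _ => hi w _]
          apply Finset.sum_congr rfl
          intro w _
          rw [integral_indicator (hm w), setIntegral_const, smul_eq_mul, mul_comm]
          congr 1
          exact vol_real h4 w
      _ = (1 / 2) ^ N * ∑ w ∈ words N, |A w| := by
          rw [Finset.mul_sum]
          apply Finset.sum_congr rfl
          intro w hw
          rw [length_words hw, mul_comm]
  · intro φ hφ hB
    rw [h2 φ hφ hB]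
    obtain ⟨B, hB⟩ := hB
    have e : ∀ x, (f x : ℂ) * φ x =
        ∑ w ∈ words N, (RR w : Set (E d)).indicator (fun y => (A w : ℂ) * φ y) x := by
      intro x
      simp only [hf]
      push_cast
      rw [Finset.sum_mul]
      apply Finset.sum_congr rfl
      intro w _
      by_cases hx : x ∈ (RR w : Set (E d))
      · simp [hx]
      · simp [hx]
    simp_rw [e]
    rw [integral_finsetSum]
    · apply Finset.sum_congr rfl
      intro w _
      rw [integral_indicator (hm w), integral_const_mul]
    · intro w _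
      have : IntegrableOn (fun y => (A w : ℂ) * φ y) (RR w : Set (E d)) := by
        apply Integrable.const_mul
        have hc : IntegrableOn (fun _ => B) (RR w : Set (E d)) := integrableOn_const (vol_fin h4 w)
        exact hc.mono' hφ.aestronglyMeasurable (Eventually.of_forall hB)
      exact this.integrable_indicator (hm w)

/-- the heat flow of cascades -/
lemma flow_bound (h4 : Stm4) (hH : StmH) (θ : ℝ) (hθ : 0 ≤ θ) (hθ1 : θ ≤ 1) :
    ∃ C : ℝ, 0 ≤ C ∧ ∀ (a : List Bool → ℝ) (Λ : ℝ) (N : ℕ), (∀ w, 0 ≤ a w) →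
      (∀ w, a (false :: w) + a (true :: w) = 2 * a w) →
      (∀ k, ∀ w ∈ words k, a w ≤ Λ * 2 ^ (θ * k)) →
      ∀ (t : ℝ) (x : E d), 0 < t →
        t ^ (θ * d / 2) * ∑ w ∈ words N, a w * ∫ y in RR w, heat t (x - y) ≤ C * Λ := by
  obtain ⟨C, hC, hb⟩ := hH d
  refine ⟨C + 1, by positivity, ?_⟩
  intro a Λ N ha0 ha hle t x ht
  have hd0 : (0 : ℝ) < d := by exact_mod_cast Nat.pos_of_ne_zero (NeZero.ne d)
  have ha1 : a [] ≤ Λ := by
    have := hle 0 [] (by simp [words])
    simpa using this
  have hΛ : 0 ≤ Λ := (ha0 []).trans ha1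
  rcases le_or_gt 1 t with h1 | h1
  · -- large t
    have hint : ∀ w : List Bool, ∫ y in RR w, heat t (x - y) ≤
        (4 * π * t) ^ (-(d : ℝ) / 2) * (1 / 2) ^ w.length := by
      intro w
      have hc : IntegrableOn (fun _ : E d => (4 * π * t) ^ (-(d : ℝ) / 2)) (RR w : Set (E d)) :=
        integrableOn_const (vol_fin h4 w)
      have h2 : ∫ y in RR w, heat t (x - y) ≤
          ∫ _ in (RR w : Set (E d)), (4 * π * t) ^ (-(d : ℝ) / 2) := by
        apply integral_mono
        · apply hc.mono'
          · exact ((continuous_heat t).comp (continuous_const.sub continuous_id)).aestronglyMeasurable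
          · exact Eventually.of_forall fun y => by
              rw [Real.norm_of_nonneg (heat_nonneg ht _)]
              exact heat_le ht _
        · exact hc
        · intro y; exact heat_le ht _
      rw [setIntegral_const, smul_eq_mul] at h2
      refine h2.trans (le_of_eq ?_)
      rw [mul_comm]; congr 1
      exact vol_real h4 w
    have h3 : ∑ w ∈ words N, a w * ∫ y in RR w, heat t (x - y) ≤
        (4 * π * t) ^ (-(d : ℝ) / 2) * a [] := by
      calc ∑ w ∈ words N, a w * ∫ y in RR w, heat t (x - y)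
          ≤ ∑ w ∈ words N, a w * ((4 * π * t) ^ (-(d : ℝ) / 2) * (1 / 2) ^ N) := by
            apply Finset.sum_le_sum
            intro w hw
            have := hint w
            rw [length_words hw] at this
            exact mul_le_mul_of_nonneg_left this (ha0 w)
        _ = (4 * π * t) ^ (-(d : ℝ) / 2) * a [] * ((1 / 2) ^ N * 2 ^ N) := by
            rw [← Finset.sum_mul, sum_mart a ha]; ring
        _ = _ := by rw [← mul_pow]; norm_num
    have h4' : t ^ (θ * d / 2) * (4 * π * t) ^ (-(d : ℝ) / 2) ≤ 1 := by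
      have e1 : (4 * π * t) ^ (-(d : ℝ) / 2) ≤ t ^ (-(d : ℝ) / 2) := by
        apply Real.rpow_le_rpow_of_nonpos ht
        · have := Real.pi_gt_three
          nlinarith
        · have : 0 ≤ (d : ℝ) := hd0.le
          linarith
      calc t ^ (θ * d / 2) * (4 * π * t) ^ (-(d : ℝ) / 2)
          ≤ t ^ (θ * d / 2) * t ^ (-(d : ℝ) / 2) := by gcongr
        _ = t ^ (θ * d / 2 + -(d : ℝ) / 2) := by rw [← Real.rpow_add ht]
        _ ≤ t ^ (0 : ℝ) := by
            apply Real.rpow_le_rpow_of_exponent_le h1
            nlinarith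
        _ = 1 := Real.rpow_zero t
    calc t ^ (θ * d / 2) * ∑ w ∈ words N, a w * ∫ y in RR w, heat t (x - y)
        ≤ t ^ (θ * d / 2) * ((4 * π * t) ^ (-(d : ℝ) / 2) * a []) := by gcongr
      _ = (t ^ (θ * d / 2) * (4 * π * t) ^ (-(d : ℝ) / 2)) * a [] := by ring
      _ ≤ 1 * Λ := by
          apply mul_le_mul h4' ha1 (ha0 _) (by norm_num)
      _ ≤ (C + 1) * Λ := by gcongr; linarith
  · -- small t
    obtain ⟨r, hr1, hr2⟩ : ∃ r : ℕ, (1 / 4 : ℝ) ^ (r + 1) < t ∧ t ≤ (1 / 4) ^ r :=
      exists_nat_pow_near_of_lt_one ht h1.le (by norm_num) (by norm_num)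
    have hdn : 0 < d := Nat.pos_of_ne_zero (NeZero.ne d)
    set k := min (d * r) N with hk
    have hcond : (1 / 4 : ℝ) ^ (k / d + 1) ≤ t ∨ k = N := by
      rcases le_or_gt (d * r) N with h | h
      · left
        rw [hk, min_eq_left h, Nat.mul_div_cancel_left r hdn]
        exact hr1.le
      · right
        rw [hk, min_eq_right h.le]
    have hM := hb a ha0 ha k N (Λ * 2 ^ (θ * k)) t x (min_le_right _ _) (hle k) ht hcond
    have h2 : (2 : ℝ) ^ (θ * k) ≤ t ^ (-(θ * d / 2)) := by
      have hk' : (k : ℝ) ≤ d * r := by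
        have : k ≤ d * r := min_le_left _ _
        exact_mod_cast this
      calc (2 : ℝ) ^ (θ * k) ≤ 2 ^ (θ * (d * r)) := by
            apply Real.rpow_le_rpow_of_exponent_le (by norm_num)
            gcongr
        _ = ((1 / 4 : ℝ) ^ r) ^ (-(θ * d / 2)) := by
            have e4 : (1 / 4 : ℝ) ^ r = 2 ^ (-(2 * r : ℝ)) := by
              rw [Real.rpow_neg (by norm_num), Real.rpow_mul (by norm_num), Real.rpow_natCast,
                one_div, inv_pow]
              norm_num
            rw [e4, ← Real.rpow_mul (by norm_num)]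
            congr 1; ring
        _ ≤ t ^ (-(θ * d / 2)) := by
            apply Real.rpow_le_rpow_of_nonpos ht hr2
            have : 0 ≤ θ * d / 2 := by positivity
            linarith
    calc t ^ (θ * d / 2) * ∑ w ∈ words N, a w * ∫ y in RR w, heat t (x - y)
        ≤ t ^ (θ * d / 2) * (C * (Λ * 2 ^ (θ * k))) := by gcongr
      _ ≤ t ^ (θ * d / 2) * (C * (Λ * t ^ (-(θ * d / 2)))) := by gcongr
      _ = C * Λ * (t ^ (θ * d / 2) * t ^ (-(θ * d / 2))) := by ring
      _ = C * Λ := by rw [← Real.rpow_add ht, add_neg_cancel, Real.rpow_zero, mul_one]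
      _ ≤ (C + 1) * Λ := by gcongr; linarith

end

end Pool.Agent.R244.LZ.Asm
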