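import Pool.Agent.R244.LZ.Asm1

/-!
# Project LZ: assembly, part 2: the general construction
-/

set_option autoImplicit false

open MeasureTheory Filter Topology
open scoped BigOperators Real ENNReal

namespace Pool.Agent.R244.LZ.Asm

open Pool.Agent.R244.LZ

/-- the moments on the windows -/
lemma moments (h1 : Stm1) (h2 : Stm2) (d : ℕ) [NeZero d] (θ Λ : ℝ) (hθ : 0 ≤ θ) (hθ1 : θ < 1)
    (hΛ : 0 < Λ) :
    ∃ a b : ℝ, 0 < a ∧ 0 < b ∧ ∀ (c : ℕ → ℂ) (N : ℕ) (γ : ℝ) (k : ℕ), 0 < γ → k < N →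
      (∀ j, ‖c j‖ ≤ γ) → ‖c k‖ = γ → (∀ j < N, PP c j ≤ Λ * 2 ^ (θ * j)) →
      (2 : ℝ) ^ (θ * k) / 2 ≤ PP c k → (1 / 2 : ℝ) ^ k ≤ γ ^ 2 →
      ∀ ξ ∈ AA d k,
        a * (γ * 2 ^ ((θ - 1) / 2 * k)) ≤ mean N (fun ω => ‖S c (zz ξ) N ω‖) ∧
        mean N (fun ω => ‖S c (zz ξ) N ω‖ ^ 2) ≤ b * (γ * 2 ^ ((θ - 1) / 2 * k)) ^ 2 := by
  set ρ : ℝ := 2 ^ (1 + θ) with hρ
  have hρ2 : 2 ≤ ρ := by
    calc (2 : ℝ) = 2 ^ (1 : ℝ) := (Real.rpow_one 2).symm
      _ ≤ ρ := Real.rpow_le_rpow_of_exponent_le (by norm_num) (by linarith)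
  have hρ4 : ρ < 4 := by
    calc ρ < 2 ^ (2 : ℝ) := Real.rpow_lt_rpow_of_exponent_lt (by norm_num) (by linarith)
      _ = 4 := by norm_num
  have hρj : ∀ j : ℕ, (2 : ℝ) ^ j * 2 ^ (θ * j) = ρ ^ j := by
    intro j
    rw [hρ, ← Real.rpow_natCast (2 ^ (1 + θ)) j, ← Real.rpow_mul (by norm_num),
      ← Real.rpow_natCast 2 j, ← Real.rpow_add (by norm_num)]
    congr 1; ring
  have hrk : ∀ k : ℕ, (ρ / 4) ^ k = 2 ^ ((θ - 1) * k) := by
    intro k
    rw [div_pow, ← hρj k, show (4 : ℝ) ^ k = 2 ^ ((2 : ℝ) * k) by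
      rw [Real.rpow_mul (by norm_num), Real.rpow_natCast]; norm_num, ← Real.rpow_natCast 2 k,
      ← Real.rpow_add (by norm_num), ← Real.rpow_sub (by norm_num)]
    congr 1; ring
  have hr1 : 0 < 1 - ρ / 4 := by linarith
  refine ⟨(√3)⁻¹ * (1 / 8 * (1 / 2) ^ d) * (√2)⁻¹,
    16 ^ d + Λ * (16 * 16 ^ d + (1 - ρ / 4)⁻¹), by positivity, by positivity, ?_⟩
  intro c N γ k hγ hk hc hck hPP hPPk hkγ ξ hξ
  obtain ⟨-, h2'⟩ := h2 d k N hk
  obtain ⟨-, -, t1, t2, t3, t4⟩ := h2' ξ hξ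
  have hz : ∀ i, ‖zz ξ i‖ = 1 := fun i => ch_norm _ _
  obtain ⟨m1, m2⟩ := h1 c (zz ξ) N hz
  have hσ2 : (γ * (2 : ℝ) ^ ((θ - 1) / 2 * k)) ^ 2 = γ ^ 2 * (ρ / 4) ^ k := by
    rw [mul_pow, hrk, ← Real.rpow_natCast (2 ^ _) 2, ← Real.rpow_mul (by norm_num)]
    congr 2; push_cast; ring
  have hbb0 : ∀ j, 0 ≤ bb (zz ξ) N j := by intro j; unfold bb; positivity
  have hPP0 : ∀ j, 0 ≤ PP c j := by intro j; unfold PP; positivity
  have h16 : ((4 : ℝ) ^ d) ^ 2 = 16 ^ d := by rw [← pow_mul, mul_comm, pow_mul]; norm_num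
  have h14 : ((1 / 2 : ℝ) ^ k) ^ 2 = (1 / 4) ^ k := by
    rw [← pow_mul, mul_comm, pow_mul]; norm_num
  constructor
  · refine le_trans ?_ (m1 k hk)
    rw [hck]
    have hb0 : 0 ≤ 1 / 8 * (1 / 2 : ℝ) ^ d * (1 / 2) ^ k := by positivity
    have e1 : (√2)⁻¹ * √(ρ ^ k) ≤ √(2 ^ k * PP c k) := by
      rw [← Real.sqrt_inv, ← Real.sqrt_mul (by norm_num)]
      apply Real.sqrt_le_sqrt
      rw [← hρj k]
      calc (2 : ℝ)⁻¹ * (2 ^ k * 2 ^ (θ * k)) = 2 ^ k * (2 ^ (θ * k) / 2) := by ring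
        _ ≤ _ := by gcongr
    have e2 : (1 / 2 : ℝ) ^ k * √(ρ ^ k) = 2 ^ ((θ - 1) / 2 * k) := by
      rw [← hρj k, ← Real.rpow_natCast 2 k, ← Real.rpow_add (by norm_num), Real.sqrt_eq_rpow,
        ← Real.rpow_mul (by norm_num), one_div, inv_pow, ← Real.rpow_natCast 2 k,
        ← Real.rpow_neg (by norm_num), ← Real.rpow_add (by norm_num)]
      congr 1; ring
    calc (√3)⁻¹ * (1 / 8 * (1 / 2) ^ d) * (√2)⁻¹ * (γ * 2 ^ ((θ - 1) / 2 * k))
        = (√3)⁻¹ * (γ * (1 / 8 * (1 / 2) ^ d * (1 / 2) ^ k) * ((√2)⁻¹ * √(ρ ^ k))) := by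
          rw [← e2]; ring
      _ ≤ (√3)⁻¹ * (γ * bb (zz ξ) N k * √(2 ^ k * PP c k)) := by
          have := mul_nonneg hγ.le (hbb0 k)
          gcongr
  · rw [m2, hσ2]
    -- the first term
    have f1 : (∏ i ∈ Finset.range N, (‖1 + zz ξ i‖ / 2)) ^ 2 ≤ 16 ^ d * (γ ^ 2 * (ρ / 4) ^ k) := by
      have g0 : 0 ≤ ∏ i ∈ Finset.range N, (‖1 + zz ξ i‖ / 2) := by positivity
      calc (∏ i ∈ Finset.range N, (‖1 + zz ξ i‖ / 2)) ^ 2 ≤ (4 ^ d * (1 / 2) ^ k) ^ 2 :=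
            pow_le_pow_left₀ g0 t3 2
        _ = 16 ^ d * ((1 / 2 : ℝ) ^ k * (1 / 2) ^ k) := by
            rw [mul_pow, h16]; ring
        _ ≤ 16 ^ d * (γ ^ 2 * (ρ / 4) ^ k) :=
            mul_le_mul_of_nonneg_left (mul_le_mul hkγ
              (pow_le_pow_left₀ (by norm_num) (by linarith) k) (by positivity) (by positivity))
              (by positivity)
    -- the sum
    have f2 : ∑ j ∈ Finset.range N, ‖c j‖ ^ 2 * bb (zz ξ) N j ^ 2 * (2 ^ j * PP c j) ≤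
        γ ^ 2 * (Λ * ∑ j ∈ Finset.range N, bb (zz ξ) N j ^ 2 * ρ ^ j) := by
      rw [Finset.mul_sum, Finset.mul_sum]
      apply Finset.sum_le_sum
      intro j hj
      rw [Finset.mem_range] at hj
      calc ‖c j‖ ^ 2 * bb (zz ξ) N j ^ 2 * (2 ^ j * PP c j)
          ≤ γ ^ 2 * bb (zz ξ) N j ^ 2 * (2 ^ j * (Λ * 2 ^ (θ * j))) := by
            have := hc j
            have := hPP j hj
            have := mul_nonneg (show (0 : ℝ) ≤ 2 ^ j by positivity) (hPP0 j)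
            gcongr
        _ = γ ^ 2 * (Λ * (bb (zz ξ) N j ^ 2 * (2 ^ j * 2 ^ (θ * j)))) := by ring
        _ = _ := by rw [hρj]
    have f3 : ∑ j ∈ Finset.range N, bb (zz ξ) N j ^ 2 * ρ ^ j ≤
        (16 * 16 ^ d + (1 - ρ / 4)⁻¹) * (ρ / 4) ^ k := by
      rw [← Finset.sum_range_add_sum_Ico _ (show k + 1 ≤ N from hk)]
      have g1 : ∑ j ∈ Finset.range (k + 1), bb (zz ξ) N j ^ 2 * ρ ^ j ≤
          16 * 16 ^ d * (ρ / 4) ^ k := by
        calc ∑ j ∈ Finset.range (k + 1), bb (zz ξ) N j ^ 2 * ρ ^ j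
            ≤ ∑ j ∈ Finset.range (k + 1), (2 * 4 ^ d * (1 / 2) ^ k) ^ 2 * ρ ^ j := by
              apply Finset.sum_le_sum
              intro j hj
              rw [Finset.mem_range] at hj
              have := t1 j (by omega)
              have := hbb0 j
              gcongr
          _ = (4 * 16 ^ d * (1 / 4) ^ k) * ∑ j ∈ Finset.range (k + 1), ρ ^ j := by
              rw [← Finset.mul_sum]
              congr 1
              rw [mul_pow, mul_pow, h16, h14]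
              norm_num
          _ ≤ (4 * 16 ^ d * (1 / 4) ^ k) * (4 * ρ ^ k) := by
              gcongr
              rw [geom_sum_eq (by linarith)]
              rw [div_le_iff₀ (by linarith), pow_succ]
              have : 0 < ρ ^ k := by positivity
              nlinarith
          _ = _ := by rw [div_pow, div_pow, one_pow]; ring
      have g2 : ∑ j ∈ Finset.Ico (k + 1) N, bb (zz ξ) N j ^ 2 * ρ ^ j ≤
          (1 - ρ / 4)⁻¹ * (ρ / 4) ^ k := by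
        calc ∑ j ∈ Finset.Ico (k + 1) N, bb (zz ξ) N j ^ 2 * ρ ^ j
            ≤ ∑ j ∈ Finset.Ico (k + 1) N, (ρ / 4) ^ j := by
              apply Finset.sum_le_sum
              intro j _
              have h3 := t2 j
              have h4 := hbb0 j
              calc bb (zz ξ) N j ^ 2 * ρ ^ j ≤ ((1 / 2) ^ j) ^ 2 * ρ ^ j := by gcongr
                _ = (ρ / 4) ^ j := by
                  rw [← pow_mul, mul_comm j 2, pow_mul, ← mul_pow]
                  congr 1; ring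
          _ ≤ (ρ / 4) ^ (k + 1) / (1 - ρ / 4) :=
              geom_sum_Ico_le_of_lt_one (by positivity) (by linarith)
          _ ≤ (1 - ρ / 4)⁻¹ * (ρ / 4) ^ k := by
              rw [div_eq_inv_mul]
              gcongr ?_ * ?_
              exact pow_le_pow_of_le_one (by positivity) (by linarith) (by omega)
      linarith
    calc _ ≤ 16 ^ d * (γ ^ 2 * (ρ / 4) ^ k) +
          γ ^ 2 * (Λ * ((16 * 16 ^ d + (1 - ρ / 4)⁻¹) * (ρ / 4) ^ k)) := by
          refine add_le_add f1 (f2.trans ?_)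
          gcongr
      _ = _ := by ring

lemma ft_dens (h4 : Stm4) {d : ℕ} [NeZero d] (c : ℕ → ℂ) (ω : Finset (List Bool)) (N : ℕ)
    (μ ν : SignedMeasure (E d))
    (h1 : ∀ φ : E d → ℂ, Continuous φ → (∃ B, ∀ x, ‖φ x‖ ≤ B) →
      sint μ φ = ∑ w ∈ words N, ((F c ω w).re : ℂ) * ∫ y in RR w, φ y)
    (h2 : ∀ φ : E d → ℂ, Continuous φ → (∃ B, ∀ x, ‖φ x‖ ≤ B) →
      sint ν φ = ∑ w ∈ words N, ((F c ω w).im : ℂ) * ∫ y in RR w, φ y) (ξ : E d) :
    ft μ ξ + Complex.I * ft ν ξ =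
      2 ^ N * S c (zz ξ) N ω * ∫ y in box 0 N, ch y ξ := by
  have hc : Continuous fun x : E d => ch x ξ := by unfold ch; fun_prop
  have hB : ∃ B, ∀ x : E d, ‖ch x ξ‖ ≤ B := ⟨1, fun x => (ch_norm x ξ).le⟩
  unfold ft
  rw [h1 _ hc hB, h2 _ hc hB, Finset.mul_sum, ← Finset.sum_add_distrib]
  have e : ∀ w ∈ words N, ((F c ω w).re : ℂ) * (∫ y in RR w, ch y ξ) +
      Complex.I * (((F c ω w).im : ℂ) * ∫ y in RR w, ch y ξ) =
      (F c ω w * Z (zz ξ) w) * ∫ y in box 0 N, ch y ξ := by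
    intro w hw
    have h3 := (h4 d).2.2.1 w ξ
    rw [length_words hw] at h3
    have h5 : ((F c ω w).re : ℂ) + (F c ω w).im * Complex.I = F c ω w := Complex.re_add_im _
    calc _ = (((F c ω w).re : ℂ) + (F c ω w).im * Complex.I) * ∫ y in RR w, ch y ξ := by ring
      _ = _ := by rw [h5, h3]; ring
  rw [Finset.sum_congr rfl e, ← Finset.sum_mul]
  unfold S
  rw [show (2 : ℂ) ^ N * ((1 / 2) ^ N * ∑ w ∈ words N, F c ω w * Z (zz ξ) w) =
    (2 ^ N * (1 / 2) ^ N) * ∑ w ∈ words N, F c ω w * Z (zz ξ) w by ring, ← mul_pow]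
  norm_num

/-- bounds for the measures -/
lemma bound_dens {d : ℕ} [NeZero d] (θ C Λ : ℝ) (hC : 0 ≤ C) (A a : List Bool → ℝ) (N : ℕ)
    (ha0 : ∀ w, 0 ≤ a w) (ha : ∀ w, a (false :: w) + a (true :: w) = 2 * a w) (haΛ : a [] ≤ Λ)
    (hA : ∀ w ∈ words N, |A w| ≤ a w)
    (hf : ∀ (t : ℝ) (x : E d), 0 < t →
        t ^ (θ * d / 2) * ∑ w ∈ words N, a w * ∫ y in RR w, heat t (x - y) ≤ C * Λ)
    (μ : SignedMeasure (E d))
    (hμ : μ.totalVariation Set.univ ≤ ENNReal.ofReal ((1 / 2) ^ N * ∑ w ∈ words N, |A w|))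
    (h1 : ∀ φ : E d → ℂ, Continuous φ → (∃ B, ∀ x, ‖φ x‖ ≤ B) →
      sint μ φ = ∑ w ∈ words N, (A w : ℂ) * ∫ y in RR w, φ y) :
    Bound ((1 - θ) * d) ((C + 1) * Λ) μ := by
  have hΛ : 0 ≤ Λ := (ha0 []).trans haΛ
  constructor
  · refine hμ.trans (ENNReal.ofReal_le_ofReal ?_)
    calc (1 / 2 : ℝ) ^ N * ∑ w ∈ words N, |A w| ≤ (1 / 2) ^ N * ∑ w ∈ words N, a w := by
          gcongr with w hw
          exact hA w hw
      _ = a [] := by
          rw [sum_mart a ha, ← mul_assoc, ← mul_pow]; norm_num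
      _ ≤ (C + 1) * Λ := by nlinarith
  · intro t ht x
    have hc : Continuous fun y : E d => ((heat t (x - y) : ℝ) : ℂ) :=
      Complex.continuous_ofReal.comp ((continuous_heat t).comp (continuous_const.sub continuous_id))
    have hB : ∃ B, ∀ y : E d, ‖((heat t (x - y) : ℝ) : ℂ)‖ ≤ B := by
      refine ⟨(4 * π * t) ^ (-(d : ℝ) / 2), fun y => ?_⟩
      rw [Complex.norm_real, Real.norm_of_nonneg (heat_nonneg ht _)]
      exact heat_le ht _
    have e : ‖flow μ t x‖ ≤ ∑ w ∈ words N, a w * ∫ y in RR w, heat t (x - y) := by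
      unfold flow
      rw [h1 _ hc hB]
      refine (norm_sum_le _ _).trans ?_
      apply Finset.sum_le_sum
      intro w hw
      rw [norm_mul, Complex.norm_real, Real.norm_eq_abs, integral_complex_ofReal,
        Complex.norm_real, Real.norm_of_nonneg (integral_nonneg fun y => heat_nonneg ht _)]
      apply mul_le_mul_of_nonneg_right (hA w hw) (integral_nonneg fun y => heat_nonneg ht _)
    have e2 : ((d : ℝ) - (1 - θ) * d) / 2 = θ * d / 2 := by ring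
    rw [e2]
    calc t ^ (θ * d / 2) * ‖flow μ t x‖
        ≤ t ^ (θ * d / 2) * ∑ w ∈ words N, a w * ∫ y in RR w, heat t (x - y) := by gcongr
      _ ≤ C * Λ := hf t x ht
      _ ≤ (C + 1) * Λ := by nlinarith

end Pool.Agent.R244.LZ.Asm
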