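import Pool.Agent.R244.LZ.Asm2

/-!
# Project LZ: assembly, part 3: the general construction
-/

set_option autoImplicit false

open MeasureTheory Filter Topology
open scoped BigOperators Real ENNReal

namespace Pool.Agent.R244.LZ.Asm

open Pool.Agent.R244.LZ

lemma continuous_ft_aux {d : ℕ} [NeZero d] (h4 : Stm4) (A : List Bool → ℝ) (N : ℕ)
    (μ : SignedMeasure (E d))
    (h1 : ∀ φ : E d → ℂ, Continuous φ → (∃ B, ∀ x, ‖φ x‖ ≤ B) →
      sint μ φ = ∑ w ∈ words N, (A w : ℂ) * ∫ y in RR w, φ y) : Continuous (ft μ) := by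
  have e : ft μ = fun ξ => ∑ w ∈ words N, (A w : ℂ) * ∫ y in RR w, ch y ξ := by
    funext ξ
    have hc : Continuous fun x : E d => ch x ξ := by unfold ch; fun_prop
    exact h1 _ hc ⟨1, fun x => (ch_norm x ξ).le⟩
  rw [e]
  apply continuous_finsetSum
  intro w _
  apply continuous_const.mul
  apply continuous_of_dominated (bound := fun _ => 1)
  · intro ξ
    have hc : Continuous fun x : E d => ch x ξ := by unfold ch; fun_prop
    exact hc.aestronglyMeasurable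
  · intro ξ
    exact Eventually.of_forall fun x => (ch_norm x ξ).le
  · exact integrableOn_const (vol_fin h4 w)
  · exact Eventually.of_forall fun x => by unfold ch; fun_prop

/-- the general construction -/
theorem construct (h1 : Stm1) (h2 : Stm2) (h4 : Stm4) (hH : StmH) (h5 : Stm5) (h8 : Stm8)
    (d : ℕ) [NeZero d] (θ Λ α q : ℝ) (hθ : 0 ≤ θ) (hθ1 : θ < 1) (hΛ : 0 < Λ) (hα : 0 < α)
    (hq : 0 < q) :
    ∃ C c : ℝ, 0 < c ∧ ∀ (cc : ℕ → ℂ) (N : ℕ) (γ : ℝ) (G : Finset ℕ), 0 < γ →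
      (∀ j, ‖cc j‖ ≤ γ) → (∀ j < N, PP cc j ≤ Λ * 2 ^ (θ * j)) →
      (∀ k ∈ G, k + 2 * d * d ≤ N ∧ k < N ∧ ‖cc k‖ = γ ∧ (2 : ℝ) ^ (θ * k) / 2 ≤ PP cc k ∧
        (1 / 2 : ℝ) ^ k ≤ γ ^ 2) →
      (∀ ω, ∃ a : List Bool → ℝ, (∀ w, 0 ≤ a w) ∧
        (∀ w, a (false :: w) + a (true :: w) = 2 * a w) ∧
        (∀ k, ∀ w ∈ words k, a w ≤ Λ * 2 ^ (θ * k)) ∧ ∀ w ∈ words N, ‖F cc ω w‖ ≤ a w) →
      ∃ μ : SignedMeasure (E d), Bound ((1 - θ) * d) C μ ∧
        ENNReal.ofReal (c * γ ^ q * G.card) ≤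
          lorq (2 * d / (2 * α + (1 - θ) * d)) q (ftRiesz α μ) := by
  have hdn : 0 < d := Nat.pos_of_ne_zero (NeZero.ne d)
  have hd0 : (0 : ℝ) < d := by exact_mod_cast hdn
  obtain ⟨a, b, ha, hb, hmom⟩ := moments h1 h2 d θ Λ hθ hθ1 hΛ
  obtain ⟨c, hc, hsel⟩ := Sel.selection a b ha hb
  obtain ⟨C, hC, hflow⟩ := flow_bound (d := d) h4 hH θ hθ hθ1.le
  set p : ℝ := 2 * d / (2 * α + (1 - θ) * d) with hp
  have hden : 0 < 2 * α + (1 - θ) * d := by
    have : 0 < 1 - θ := by linarith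
    positivity
  have hp0 : 0 < p := by positivity
  obtain ⟨c5, hc5, hlor⟩ := h5 p q (c / (2 * 8 ^ d)) hp0 hq (by positivity)
  set κ : ℝ := (c / 4) * (2 * π * d) ^ (-α) with hκ
  have hκ0 : 0 < κ := by positivity
  refine ⟨(C + 1) * Λ, c5 * κ ^ q * (c / 2), by positivity, ?_⟩
  intro cc N γ G hγ hcc hPP hG hdom
  have hvolA : ∀ k, volume (AA d k) = ENNReal.ofReal (2 ^ k / 8 ^ d) :=
    fun k => (h2 d k (k + 1) (by omega)).1
  have hvolA' : ∀ k, (volume (AA d k)).toReal = 2 ^ k / 8 ^ d := fun k => by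
    rw [hvolA, ENNReal.toReal_ofReal (by positivity)]
  set σ : ℕ → ℝ := fun k => γ * 2 ^ ((θ - 1) / 2 * k) with hσ
  have hσ0 : ∀ k, 0 < σ k := fun k => by simp only [hσ]; positivity
  obtain ⟨ω, K, hKG, hKcard, hK⟩ := hsel d cc N G σ (fun k => by rw [hvolA']; positivity)
    (fun k _ => hσ0 k) (fun k hk ξ hξ => by
      obtain ⟨g1, g2, g3, g4, g5⟩ := hG k hk
      exact hmom cc N γ k hγ g2 hcc g3 hPP g4 g5 ξ hξ)
  obtain ⟨A, hA0, hA1, hA2, hA3⟩ := hdom ω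
  have hAΛ : A [] ≤ Λ := by
    have := hA2 0 [] (by simp [words])
    simpa using this
  have hfl := hflow A Λ N hA0 hA1 hA2
  obtain ⟨μ, hμ1, hμ2⟩ := dens (d := d) h4 h8 (fun w => (F cc ω w).re) N
  obtain ⟨ν, hν1, hν2⟩ := dens (d := d) h4 h8 (fun w => (F cc ω w).im) N
  have hBμ : Bound ((1 - θ) * d) ((C + 1) * Λ) μ :=
    bound_dens θ C Λ hC _ A N hA0 hA1 hAΛ
      (fun w hw => (Complex.abs_re_le_norm _).trans (hA3 w hw)) hfl μ hμ1 hμ2
  have hBν : Bound ((1 - θ) * d) ((C + 1) * Λ) ν :=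
    bound_dens θ C Λ hC _ A N hA0 hA1 hAΛ
      (fun w hw => (Complex.abs_im_le_norm _).trans (hA3 w hw)) hfl ν hν1 hν2
  have hcμ : Continuous (ft μ) := continuous_ft_aux h4 _ N μ hμ2
  have hcν : Continuous (ft ν) := continuous_ft_aux h4 _ N ν hν2
  -- lower bound for the sum
  have hsum : ∀ k ∈ K, ∀ ξ ∈ AA d k, c * σ k ≤ ‖S cc (zz ξ) N ω‖ →
      c / 4 * σ k ≤ ‖ft μ ξ‖ ∨ c / 4 * σ k ≤ ‖ft ν ξ‖ := by
    intro k hk ξ hξ hS
    by_contra hcon
    push Not at hcon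
    have e := ft_dens h4 cc ω N μ ν hμ2 hν2 ξ
    have hbox := (h4 d).2.2.2 k N (hG k (hKG hk)).1 ξ hξ
    have h3 : ‖ft μ ξ + Complex.I * ft ν ξ‖ < c / 2 * σ k := by
      calc ‖ft μ ξ + Complex.I * ft ν ξ‖ ≤ ‖ft μ ξ‖ + ‖Complex.I * ft ν ξ‖ := norm_add_le _ _
        _ = ‖ft μ ξ‖ + ‖ft ν ξ‖ := by rw [norm_mul, Complex.norm_I, one_mul]
        _ < c / 4 * σ k + c / 4 * σ k := add_lt_add hcon.1 hcon.2
        _ = _ := by ring
    rw [e, norm_mul, norm_mul, norm_pow] at h3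
    have h6 : c / 2 * σ k ≤ ‖(2 : ℂ)‖ ^ N * ‖S cc (zz ξ) N ω‖ * ‖∫ y in box 0 N, ch y ξ‖ := by
      have h2' : ‖(2 : ℂ)‖ = 2 := by simp
      rw [h2']
      calc c / 2 * σ k = c * σ k * (1 / 2) := by ring
        _ ≤ ‖S cc (zz ξ) N ω‖ * (1 / 2) := by gcongr
        _ = 2 ^ N * ‖S cc (zz ξ) N ω‖ * (1 / 2) ^ (N + 1) := by
            rw [pow_succ]
            have : (2 : ℝ) ^ N * (1 / 2) ^ N = 1 := by rw [← mul_pow]; norm_num
            linear_combination (-(1 / 2) * ‖S cc (zz ξ) N ω‖) * this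
        _ ≤ _ := by gcongr
    linarith
  -- the choice of the measure
  set Bs : SignedMeasure (E d) → ℕ → Set (E d) := fun ρ k =>
    AA d k ∩ {ξ | c / 4 * σ k ≤ ‖ft ρ ξ‖} with hBs
  set Ks : SignedMeasure (E d) → Finset ℕ := fun ρ =>
    K.filter (fun k => ENNReal.ofReal (c / (2 * 8 ^ d) * 2 ^ k) ≤ volume (Bs ρ k)) with hKs
  have hunion : K ⊆ Ks μ ∪ Ks ν := by
    intro k hk
    rw [Finset.mem_union]
    simp only [hKs, Finset.mem_filter]
    by_contra hcon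
    push Not at hcon
    obtain ⟨c1, c2⟩ := hcon
    have c1 := c1 hk
    have c2 := c2 hk
    have h3 : volume (AA d k ∩ {ξ | c * σ k ≤ ‖S cc (zz ξ) N ω‖}) ≤
        volume (Bs μ k) + volume (Bs ν k) := by
      refine le_trans (measure_mono ?_) (measure_union_le _ _)
      intro ξ hξ
      rcases hsum k hk ξ hξ.1 hξ.2 with h | h
      · exact Or.inl ⟨hξ.1, h⟩
      · exact Or.inr ⟨hξ.1, h⟩
    have h6 : volume (AA d k ∩ {ξ | c * σ k ≤ ‖S cc (zz ξ) N ω‖}) <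
        ENNReal.ofReal (c * (volume (AA d k)).toReal) := by
      calc _ ≤ volume (Bs μ k) + volume (Bs ν k) := h3
        _ < ENNReal.ofReal (c / (2 * 8 ^ d) * 2 ^ k) + ENNReal.ofReal (c / (2 * 8 ^ d) * 2 ^ k) :=
            ENNReal.add_lt_add c1 c2
        _ = ENNReal.ofReal (c * (volume (AA d k)).toReal) := by
            rw [← ENNReal.ofReal_add (by positivity) (by positivity), hvolA']
            congr 1; field_simp; ring
    have h7 := hK k hk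
    have h8' : ENNReal.ofReal (c * (volume (AA d k)).toReal) ≤
        volume (AA d k ∩ {ξ | c * σ k ≤ ‖S cc (zz ξ) N ω‖}) := by
      rw [← ENNReal.ofReal_toReal (h6.trans ENNReal.ofReal_lt_top).ne]
      exact ENNReal.ofReal_le_ofReal h7
    exact absurd h8' (not_le.mpr h6)
  have hcard : K.card ≤ (Ks μ).card + (Ks ν).card :=
    (Finset.card_le_card hunion).trans (Finset.card_union_le _ _)
  obtain ⟨ρ, hρB, hρcard⟩ : ∃ ρ : SignedMeasure (E d), Bound ((1 - θ) * d) ((C + 1) * Λ) ρ ∧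
      K.card ≤ 2 * (Ks ρ).card := by
    rcases le_or_gt (Ks μ).card (Ks ν).card with h | h
    · exact ⟨ν, hBν, by omega⟩
    · exact ⟨μ, hBμ, by omega⟩
  refine ⟨ρ, hρB, ?_⟩
  have hfin := hlor d (ftRiesz α ρ) (κ * γ) (Ks ρ) (by positivity) ?_
  · refine le_trans (ENNReal.ofReal_le_ofReal ?_) hfin
    rw [Real.mul_rpow hκ0.le hγ.le]
    have h3 : (K.card : ℝ) ≤ 2 * (Ks ρ).card := by exact_mod_cast hρcard
    have h4' : c / 2 * (G.card : ℝ) ≤ (Ks ρ).card := by linarith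
    calc c5 * κ ^ q * (c / 2) * γ ^ q * G.card = c5 * (κ ^ q * γ ^ q) * (c / 2 * G.card) := by ring
      _ ≤ c5 * (κ ^ q * γ ^ q) * (Ks ρ).card := by gcongr
  · intro k hk
    simp only [hKs, Finset.mem_filter] at hk
    obtain ⟨hkK, hkv⟩ := hk
    refine hkv.trans (measure_mono ?_)
    intro ξ hξ
    obtain ⟨hξA, hξB⟩ := hξ
    obtain ⟨x0, x1, -⟩ := (h2 d k (k + 1) (by omega)).2 ξ hξA
    simp only [Set.mem_ofPred_eq] at hξB ⊢
    unfold ftRiesz
    rw [norm_mul, Complex.norm_real, Real.norm_of_nonneg (by positivity)]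
    have e1 : (2 * π * d) ^ (-α) * 2 ^ (-(α / d) * k) ≤ (2 * π * ‖ξ‖) ^ (-α) := by
      calc (2 * π * d) ^ (-α) * (2 : ℝ) ^ (-(α / d) * k)
          = (2 * π * (d * 2 ^ ((k : ℝ) / d))) ^ (-α) := by
            rw [← mul_assoc, Real.mul_rpow (by positivity) (by positivity) (z := -α) (x := 2 * π * d),
              ← Real.rpow_mul (by norm_num)]
            congr 2; ring
        _ ≤ (2 * π * ‖ξ‖) ^ (-α) := by
            apply Real.rpow_le_rpow_of_nonpos (by positivity) _ (by linarith)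
            gcongr
    have e2 : (2 : ℝ) ^ (-(k / p)) = 2 ^ (-(α / d) * k) * 2 ^ ((θ - 1) / 2 * k) := by
      rw [← Real.rpow_add (by norm_num)]
      congr 1
      rw [hp]; field_simp; ring
    calc κ * γ * 2 ^ (-(k / p)) = ((2 * π * d) ^ (-α) * 2 ^ (-(α / d) * k)) * (c / 4 * σ k) := by
          rw [e2, hκ, hσ]; ring
      _ ≤ (2 * π * ‖ξ‖) ^ (-α) * ‖ft ρ ξ‖ := by
          gcongr

end Pool.Agent.R244.LZ.Asm
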