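import Pool.Agent.R244.LZ.Asm3

/-!
# Project LZ: assembly, part 4: the two cases
-/

set_option autoImplicit false

open MeasureTheory Filter Topology
open scoped BigOperators Real ENNReal

namespace Pool.Agent.R244.LZ.Asm

open Pool.Agent.R244.LZ

lemma tendsto_lor {d : ℕ} (p q : ℝ) (hq : 0 < q) (x : ℕ → ℝ) (hx : Tendsto x atTop atTop)
    (g : ℕ → E d → ℂ) (h : ∀ N, ENNReal.ofReal (x N) ≤ lorq p q (g N)) :
    Tendsto (fun N => lor p q (g N)) atTop (𝓝 ⊤) := by
  have h1 : Tendsto (fun N => ENNReal.ofReal (x N) ^ (1 / q)) atTop (𝓝 ⊤) := by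
    have h2 : Tendsto (fun N => ENNReal.ofReal (x N)) atTop (𝓝 ⊤) :=
      ENNReal.tendsto_ofReal_atTop.comp hx
    have h3 := (ENNReal.continuous_rpow_const (y := 1 / q)).tendsto ⊤
    rw [ENNReal.top_rpow_of_pos (by positivity)] at h3
    exact h3.comp h2
  refine tendsto_nhds_top_mono' h1 ?_
  intro N
  exact ENNReal.rpow_le_rpow (h N) (by positivity)

lemma sg_cases (ω : Finset (List Bool)) (w : List Bool) : sg ω w = 1 ∨ sg ω w = -1 := by
  unfold sg; split_ifs
  · exact Or.inr rfl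
  · exact Or.inl rfl

/-! ### the case `β < d` -/

/-- the coefficients -/
noncomputable def cθ (θ : ℝ) (j : ℕ) : ℂ := if ⌊θ * (j + 1 : ℕ)⌋₊ = ⌊θ * j⌋₊ then 0 else 1

lemma fl_succ (θ : ℝ) (hθ : 0 ≤ θ) (hθ1 : θ < 1) (k : ℕ) :
    ⌊θ * (k + 1 : ℕ)⌋₊ = ⌊θ * k⌋₊ ∨ ⌊θ * (k + 1 : ℕ)⌋₊ = ⌊θ * k⌋₊ + 1 := by
  have h1 : ⌊θ * k⌋₊ ≤ ⌊θ * (k + 1 : ℕ)⌋₊ := by
    apply Nat.floor_le_floor
    push_cast
    nlinarith
  have h2 : ⌊θ * (k + 1 : ℕ)⌋₊ ≤ ⌊θ * k⌋₊ + 1 := by
    rw [← Nat.floor_add_one (by positivity)]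
    apply Nat.floor_le_floor
    push_cast
    nlinarith
  omega

lemma PP_cθ (θ : ℝ) (hθ : 0 ≤ θ) (hθ1 : θ < 1) (k : ℕ) : PP (cθ θ) k = 2 ^ ⌊θ * k⌋₊ := by
  induction k with
  | zero => simp [PP]
  | succ k ih =>
    have : PP (cθ θ) (k + 1) = PP (cθ θ) k * (1 + ‖cθ θ k‖ ^ 2) := by
      unfold PP; rw [Finset.prod_range_succ]
    rw [this, ih]
    unfold cθ
    rcases fl_succ θ hθ hθ1 k with h | h
    · rw [if_pos h, h]; simp
    · rw [if_neg (by omega), h]; norm_num [pow_succ]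

lemma card_cθ (θ : ℝ) (hθ : 0 ≤ θ) (hθ1 : θ < 1) (m : ℕ) :
    ((Finset.range m).filter (fun k => ⌊θ * (k + 1 : ℕ)⌋₊ ≠ ⌊θ * k⌋₊)).card = ⌊θ * m⌋₊ := by
  induction m with
  | zero => simp
  | succ m ih =>
    rw [Finset.range_add_one, Finset.filter_insert]
    rcases fl_succ θ hθ hθ1 m with h | h
    · rw [if_neg (by simpa using h), ih, h]
    · rw [if_pos (by omega), Finset.card_insert_of_notMem (by simp), ih, h]

lemma norm_F_cθ (θ : ℝ) (ω : Finset (List Bool)) (b : Bool) (w : List Bool) :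
    ‖F (cθ θ) ω (b :: w)‖ ≤ ‖F (cθ θ) ω w‖ * (1 + ‖cθ θ w.length‖ ^ 2) ∧
    ‖F (cθ θ) ω (false :: w)‖ + ‖F (cθ θ) ω (true :: w)‖ = 2 * ‖F (cθ θ) ω w‖ := by
  have hc : cθ θ w.length = 0 ∨ cθ θ w.length = 1 := by
    unfold cθ; split_ifs
    · exact Or.inl rfl
    · exact Or.inr rfl
  simp only [F, norm_mul]
  rcases hc with h | h <;> rcases sg_cases ω w with h' | h' <;> rw [h, h'] <;> cases b <;>
    norm_num <;> ring_nf

theorem caseI (h1 : Stm1) (h2 : Stm2) (h4 : Stm4) (hH : StmH) (h5 : Stm5) (h8 : Stm8)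
    (d : ℕ) [NeZero d] (β α q : ℝ) (hβ : 0 < β) (hβd : β < d) (hα : 0 < α) (hq : 0 < q) :
    ∃ (C : ℝ) (Φ : ℕ → SignedMeasure (E d)), (∀ N, Bound β C (Φ N)) ∧
      Tendsto (fun N => lor (2 * d / (2 * α + β)) q (ftRiesz α (Φ N))) atTop (𝓝 ⊤) := by
  have hdn : 0 < d := Nat.pos_of_ne_zero (NeZero.ne d)
  have hd0 : (0 : ℝ) < d := by exact_mod_cast hdn
  set θ := 1 - β / d with hθdef
  have hθ0 : 0 < θ := by
    have : β / d < 1 := by rw [div_lt_one hd0]; exact hβd
    linarith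
  have hθ1 : θ < 1 := by
    have : 0 < β / d := by positivity
    linarith
  have hβe : (1 - θ) * d = β := by rw [hθdef]; field_simp; ring
  obtain ⟨C, c, hc, hcon⟩ := construct h1 h2 h4 hH h5 h8 d θ 1 α q hθ0.le hθ1 one_pos hα hq
  rw [hβe] at hcon
  set G : ℕ → Finset ℕ := fun N =>
    (Finset.range (N - 2 * d * d)).filter (fun k => ⌊θ * (k + 1 : ℕ)⌋₊ ≠ ⌊θ * k⌋₊) with hG
  have hex : ∀ N, ∃ μ : SignedMeasure (E d), Bound β C μ ∧
      ENNReal.ofReal (c * (1 : ℝ) ^ q * (G N).card) ≤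
        lorq (2 * d / (2 * α + β)) q (ftRiesz α μ) := by
    intro N
    apply hcon (cθ θ) N 1 (G N) one_pos
    · intro j; unfold cθ; split_ifs <;> simp
    · intro j _
      rw [PP_cθ θ hθ0.le hθ1, one_mul, ← Real.rpow_natCast]
      apply Real.rpow_le_rpow_of_exponent_le (by norm_num)
      exact Nat.floor_le (by positivity)
    · intro k hk
      simp only [hG, Finset.mem_filter, Finset.mem_range] at hk
      have hdd : 0 < 2 * d * d := by positivity
      refine ⟨by omega, by omega, ?_, ?_, ?_⟩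
      · unfold cθ; rw [if_neg hk.2]; simp
      · rw [PP_cθ θ hθ0.le hθ1, div_le_iff₀ (by norm_num), ← pow_succ, ← Real.rpow_natCast 2 (_ + 1)]
        apply Real.rpow_le_rpow_of_exponent_le (by norm_num)
        push_cast
        exact (Nat.lt_floor_add_one _).le
      · rw [one_pow]; exact pow_le_one₀ (by norm_num) (by norm_num)
    · intro ω
      refine ⟨fun w => ‖F (cθ θ) ω w‖, fun w => norm_nonneg _,
        fun w => (norm_F_cθ θ ω true w).2, ?_, fun w _ => le_rfl⟩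
      intro k w hw
      have h3 : ‖F (cθ θ) ω w‖ ≤ PP (cθ θ) k := by
        have hlen := length_words hw
        clear hw
        induction w generalizing k with
        | nil =>
          simp at hlen
          simp [F, PP, ← hlen]
        | cons b w ih =>
          simp at hlen
          subst hlen
          have := ih w.length rfl
          refine (norm_F_cθ θ ω b w).1.trans ?_
          unfold PP
          rw [Finset.prod_range_succ]
          gcongr
          exact this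
      refine h3.trans ?_
      rw [PP_cθ θ hθ0.le hθ1, one_mul, ← Real.rpow_natCast]
      apply Real.rpow_le_rpow_of_exponent_le (by norm_num)
      exact Nat.floor_le (by positivity)
  choose Φ hΦ1 hΦ2 using hex
  refine ⟨C, Φ, hΦ1, ?_⟩
  apply tendsto_lor _ q hq (fun N => c * (1 : ℝ) ^ q * (G N).card) _ _ hΦ2
  simp only [Real.one_rpow, mul_one]
  apply Tendsto.const_mul_atTop hc
  apply tendsto_natCast_atTop_atTop.comp
  have e : (fun N => (G N).card) = fun N : ℕ => ⌊θ * ((N - 2 * d * d : ℕ) : ℝ)⌋₊ := by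
    funext N
    exact card_cθ θ hθ0.le hθ1 _
  rw [e]
  apply tendsto_nat_floor_atTop.comp
  apply Tendsto.const_mul_atTop hθ0
  exact tendsto_natCast_atTop_atTop.comp (tendsto_sub_atTop_nat _)

/-! ### the case `β = d`, `q < 2` -/

theorem caseII (h1 : Stm1) (h2 : Stm2) (h4 : Stm4) (hH : StmH) (h5 : Stm5) (h8 : Stm8)
    (d : ℕ) [NeZero d] (α q : ℝ) (hα : 0 < α) (hq : 0 < q) (hq2 : q < 2) :
    ∃ (C : ℝ) (Φ : ℕ → SignedMeasure (E d)), (∀ N, Bound (d : ℝ) C (Φ N)) ∧
      Tendsto (fun N => lor (2 * d / (2 * α + d)) q (ftRiesz α (Φ N))) atTop (𝓝 ⊤) := by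
  have hdn : 0 < d := Nat.pos_of_ne_zero (NeZero.ne d)
  have hd0 : (0 : ℝ) < d := by exact_mod_cast hdn
  obtain ⟨C, c, hc, hcon⟩ := construct h1 h2 h4 hH h5 h8 d 0 3 α q le_rfl one_pos
    (by norm_num) hα hq
  simp only [sub_zero, one_mul, zero_mul, Real.rpow_zero, mul_one] at hcon
  set G : ℕ → Finset ℕ := fun N =>
    (Finset.range (N - 2 * d * d)).filter (fun k => N ≤ 2 * k) with hG
  have hex : ∀ N : ℕ, ∃ μ : SignedMeasure (E d), Bound (d : ℝ) C μ ∧
      ENNReal.ofReal (c * (√((N + 1 : ℕ) : ℝ))⁻¹ ^ q * (G (N + 1)).card) ≤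
        lorq (2 * d / (2 * α + d)) q (ftRiesz α μ) := by
    intro N'
    set N := N' + 1 with hN
    have hN0 : (0 : ℝ) < N := by rw [hN]; positivity
    set γ := (√(N : ℝ))⁻¹ with hγ
    have hγ0 : 0 < γ := by positivity
    have hγ2 : γ ^ 2 = (N : ℝ)⁻¹ := by
      rw [hγ, inv_pow, Real.sq_sqrt hN0.le]
    have hnc : ‖((γ : ℂ) * Complex.I)‖ = γ := by
      rw [norm_mul, Complex.norm_I, mul_one, Complex.norm_real, Real.norm_of_nonneg hγ0.le]
    have hPP : ∀ k, PP (fun _ => (γ : ℂ) * Complex.I) k = (1 + (N : ℝ)⁻¹) ^ k := by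
      intro k
      unfold PP
      rw [Finset.prod_const, Finset.card_range, hnc, hγ2]
    have hPPle : ∀ k ≤ N, PP (fun _ => (γ : ℂ) * Complex.I) k ≤ 3 := by
      intro k hk
      rw [hPP]
      calc (1 + (N : ℝ)⁻¹) ^ k ≤ (Real.exp ((N : ℝ)⁻¹)) ^ k := by
            gcongr
            have := Real.add_one_le_exp ((N : ℝ)⁻¹)
            linarith
        _ = Real.exp (k * (N : ℝ)⁻¹) := by rw [← Real.exp_nat_mul]
        _ ≤ Real.exp 1 := by
            apply Real.exp_le_exp.mpr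
            rw [← div_eq_mul_inv, div_le_one hN0]
            exact_mod_cast hk
        _ ≤ 3 := by have := Real.exp_one_lt_d9; linarith
    apply hcon (fun _ => (γ : ℂ) * Complex.I) N γ (G N) hγ0
    · intro j; exact hnc.le
    · intro j hj; exact hPPle j hj.le
    · intro k hk
      simp only [hG, Finset.mem_filter, Finset.mem_range] at hk
      refine ⟨by omega, by omega, hnc, ?_, ?_⟩
      · rw [hPP]
        have : 1 ≤ (1 + (N : ℝ)⁻¹) ^ k := one_le_pow₀ (by
          have : 0 ≤ (N : ℝ)⁻¹ := by positivity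
          linarith)
        linarith
      · rw [hγ2, one_div, inv_pow]
        apply inv_anti₀ hN0
        have h3 : 2 * k ≤ 2 ^ k := by
          rcases Nat.eq_zero_or_pos k with h | h
          · omega
          · obtain ⟨m, rfl⟩ : ∃ m, k = m + 1 := ⟨k - 1, by omega⟩
            have : m + 1 ≤ 2 ^ m := Nat.lt_two_pow_self
            rw [pow_succ]; omega
        have h4' : N ≤ 2 ^ k := hk.2.trans h3
        exact_mod_cast h4'
    · intro ω
      refine ⟨fun _ => 3, fun _ => by norm_num, fun _ => by norm_num, fun _ _ _ => le_rfl, ?_⟩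
      intro w hw
      have h3 : ∀ w : List Bool, ‖F (fun _ => (γ : ℂ) * Complex.I) ω w‖ ^ 2 =
          PP (fun _ => (γ : ℂ) * Complex.I) w.length := by
        intro w
        induction w with
        | nil => simp [F, PP]
        | cons b w ih =>
          have e1 : PP (fun _ => (γ : ℂ) * Complex.I) (b :: w).length =
              PP (fun _ => (γ : ℂ) * Complex.I) w.length * (1 + γ ^ 2) := by
            unfold PP
            rw [List.length_cons, Finset.prod_range_succ, hnc]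
          rw [e1, ← ih]
          simp only [F, norm_mul, mul_pow]
          congr 1
          rw [← Complex.normSq_eq_norm_sq, Complex.normSq_apply]
          rcases sg_cases ω w with h' | h' <;> rw [h'] <;> cases b <;> simp <;> ring
      have h4' := h3 w
      rw [length_words hw] at h4'
      have h6 := hPPle N le_rfl
      nlinarith [norm_nonneg (F (fun _ => (γ : ℂ) * Complex.I) ω w)]
  choose Φ hΦ1 hΦ2 using hex
  refine ⟨C, Φ, hΦ1, ?_⟩
  apply tendsto_lor _ q hq (fun N => c * (√((N + 1 : ℕ) : ℝ))⁻¹ ^ q * (G (N + 1)).card) _ _ hΦ2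
  -- `|G (N+1)| ≥ (N+1)/2 - 2d² - 1`
  have hcard : ∀ N : ℕ, (N : ℝ) / 2 - (2 * d * d + 1) ≤ (G N).card := by
    intro N
    have h3 : Finset.Ico ((N + 1) / 2) (N - 2 * d * d) ⊆ G N := by
      intro k hk
      rw [Finset.mem_Ico] at hk
      simp only [hG, Finset.mem_filter, Finset.mem_range]
      omega
    have h4' := Finset.card_le_card h3
    rw [Nat.card_Ico] at h4'
    have h6 : N ≤ 2 * ((G N).card + (2 * d * d + 1)) := by omega
    have h7 : (N : ℝ) ≤ 2 * ((G N).card + (2 * d * d + 1)) := by exact_mod_cast h6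
    linarith
  have hlow : ∀ᶠ N : ℕ in atTop, c / 4 * ((N + 1 : ℕ) : ℝ) ^ (1 - q / 2) ≤
      c * (√((N + 1 : ℕ) : ℝ))⁻¹ ^ q * (G (N + 1)).card := by
    filter_upwards [eventually_ge_atTop (4 * (2 * d * d + 1))] with N hN
    have hN0 : (0 : ℝ) < ((N + 1 : ℕ) : ℝ) := by positivity
    have h3 := hcard (N + 1)
    have h4' : ((N + 1 : ℕ) : ℝ) / 4 ≤ (G (N + 1)).card := by
      have h6 : ((4 * (2 * d * d + 1) : ℕ) : ℝ) ≤ N := by exact_mod_cast hN
      push_cast at h6 h3 ⊢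
      linarith
    have e1 : (√((N + 1 : ℕ) : ℝ))⁻¹ ^ q = ((N + 1 : ℕ) : ℝ) ^ (-(q / 2)) := by
      rw [Real.sqrt_eq_rpow, ← Real.rpow_neg hN0.le, ← Real.rpow_mul hN0.le]
      congr 1; ring
    have e2 : ((N + 1 : ℕ) : ℝ) ^ (1 - q / 2) =
        ((N + 1 : ℕ) : ℝ) ^ (-(q / 2)) * ((N + 1 : ℕ) : ℝ) := by
      rw [← Real.rpow_add_one hN0.ne']
      congr 1; ring
    rw [e1, e2]
    calc c / 4 * (((N + 1 : ℕ) : ℝ) ^ (-(q / 2)) * ((N + 1 : ℕ) : ℝ))
        = c * ((N + 1 : ℕ) : ℝ) ^ (-(q / 2)) * (((N + 1 : ℕ) : ℝ) / 4) := by ring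
      _ ≤ _ := by gcongr
  refine tendsto_atTop_mono' _ hlow ?_
  apply Tendsto.const_mul_atTop (by positivity)
  apply (tendsto_rpow_atTop (by linarith)).comp
  exact tendsto_natCast_atTop_atTop.comp (tendsto_add_atTop_nat 1)

end Pool.Agent.R244.LZ.Asm
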