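import Mathlib

/-!
# Project LZ (MP_8f79a4_an): definitions of the final statement

Finite signed measures on `ℝ^d`, heat flow, Fourier transform, decreasing rearrangement, Lorentz norm.
-/

set_option autoImplicit false

open MeasureTheory Filter Topology
open scoped BigOperators Real ENNReal

namespace Pool.Agent.R244.LZ

/-- `ℝ^d` -/
abbrev E (d : ℕ) := EuclideanSpace ℝ (Fin d)

/-- the heat kernel `p_t(x) = (4πt)^(-d/2) exp(-|x|²/(4t))` -/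
noncomputable def heat {d : ℕ} (t : ℝ) (x : E d) : ℝ :=
  (4 * π * t) ^ (-(d : ℝ) / 2) * Real.exp (-‖x‖ ^ 2 / (4 * t))

/-- `∫ φ dμ` for a finite signed measure `μ` (with its Jordan decomposition) -/
noncomputable def sint {d : ℕ} (μ : SignedMeasure (E d)) (φ : E d → ℂ) : ℂ :=
  ∫ x, φ x ∂μ.toJordanDecomposition.posPart - ∫ x, φ x ∂μ.toJordanDecomposition.negPart

/-- `(p_t * μ)(x)` -/
noncomputable def flow {d : ℕ} (μ : SignedMeasure (E d)) (t : ℝ) (x : E d) : ℂ :=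
  sint μ (fun y => (heat t (x - y) : ℂ))

/-- the character `exp(-2πi x·ξ)` -/
noncomputable def ch {d : ℕ} (x ξ : E d) : ℂ :=
  Complex.exp (((-(2 * π * inner ℝ x ξ) : ℝ) : ℂ) * Complex.I)

/-- the Fourier transform `μ̂(ξ) = ∫ exp(-2πi x·ξ) dμ(x)` -/
noncomputable def ft {d : ℕ} (μ : SignedMeasure (E d)) (ξ : E d) : ℂ := sint μ (fun x => ch x ξ)

/-- the Fourier transform `(2π|ξ|)^(-α) μ̂(ξ)` of the Riesz potential `I_α μ` -/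
noncomputable def ftRiesz {d : ℕ} (α : ℝ) (μ : SignedMeasure (E d)) (ξ : E d) : ℂ :=
  (((2 * π * ‖ξ‖) ^ (-α) : ℝ) : ℂ) * ft μ ξ

/-- the decreasing rearrangement `g*(s) = inf {t ≥ 0 : |{|g| > t}| ≤ s}` -/
noncomputable def rearr {d : ℕ} (g : E d → ℂ) (s : ℝ) : ℝ≥0∞ :=
  sInf {t : ℝ≥0∞ | volume {ξ | t < ‖g ξ‖ₑ} ≤ ENNReal.ofReal s}

/-- `∫_0^∞ (s^(1/p) g*(s))^q ds/s` -/
noncomputable def lorq {d : ℕ} (p q : ℝ) (g : E d → ℂ) : ℝ≥0∞ :=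
  ∫⁻ s in Set.Ioi (0 : ℝ), (ENNReal.ofReal (s ^ (1 / p)) * rearr g s) ^ q / ENNReal.ofReal s

/-- the Lorentz quasi-norm of `L^{p,q}` -/
noncomputable def lor {d : ℕ} (p q : ℝ) (g : E d → ℂ) : ℝ≥0∞ := lorq p q g ^ (1 / q)

/-- `‖μ‖_{M_b} ≤ C` and `‖μ‖_{Ḃ^{β-d}_{∞,∞}} = sup_t t^((d-β)/2) ‖p_t * μ‖_∞ ≤ C` -/
def Bound {d : ℕ} (β C : ℝ) (μ : SignedMeasure (E d)) : Prop :=
  μ.totalVariation Set.univ ≤ ENNReal.ofReal C ∧
    ∀ t : ℝ, 0 < t → ∀ x : E d, t ^ ((d - β) / 2) * ‖flow μ t x‖ ≤ C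

end Pool.Agent.R244.LZ
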