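import Pool.Agent.R244.LZ.Stm

/-! LZ-5 (MP_8f79a4_an): lower bound for the Lorentz quasi-norm. -/

set_option autoImplicit false

open MeasureTheory Filter Topology
open scoped BigOperators Real ENNReal

namespace Pool.Agent.R244.LZ

theorem stm5 : Stm5 := by
  intro p q b hp hq hb
  refine ⟨(b / 2) ^ (q / p) / 2, by positivity, ?_⟩
  intro d g τ K hτ hK
  set I : ℕ → Set ℝ := fun k => Set.Ioo (b * 2 ^ k / 2) (b * 2 ^ k) with hI
  set F : ℝ → ℝ≥0∞ := fun s => (ENNReal.ofReal (s ^ (1 / p)) * rearr g s) ^ q / ENNReal.ofReal s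
    with hF
  have hdisj : Set.PairwiseDisjoint (K : Set ℕ) I := by
    have hlt : ∀ i j : ℕ, i < j → Disjoint (I i) (I j) := by
      intro i j hij
      rw [Set.disjoint_left]
      intro s hs hs'
      have h1 := hs.2
      have h2 := hs'.1
      have h3 : (2 : ℝ) ^ (i + 1) ≤ 2 ^ j := pow_le_pow_right₀ (by norm_num) (by omega)
      rw [pow_succ] at h3
      nlinarith
    intro i _ j _ hij
    rcases Nat.lt_or_gt_of_ne hij with h | h
    · exact hlt i j h
    · exact (hlt j i h).symm
  have hmeas : ∀ k ∈ K, MeasurableSet (I k) := fun k _ => measurableSet_Ioo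
  have hsub : (⋃ k ∈ K, I k) ⊆ Set.Ioi 0 := by
    intro s hs
    simp only [Set.mem_iUnion] at hs
    obtain ⟨k, _, hk⟩ := hs
    have : (0 : ℝ) < b * 2 ^ k / 2 := by positivity
    exact this.trans hk.1
  have hk : ∀ k ∈ K, ENNReal.ofReal ((b / 2) ^ (q / p) / 2 * τ ^ q) ≤ ∫⁻ s in I k, F s := by
    intro k hkK
    have hk2 : (0 : ℝ) < b * 2 ^ k := by positivity
    have hlow : ∀ s ∈ I k,
        ENNReal.ofReal ((b / 2) ^ (q / p) * τ ^ q / (b * 2 ^ k)) ≤ F s := by
      intro s hs
      have hs0 : 0 < s := lt_trans (by positivity) hs.1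
      have hr : ENNReal.ofReal (τ * 2 ^ (-((k : ℝ) / p))) ≤ rearr g s := by
        refine le_sInf fun t ht => ?_
        by_contra hlt
        rw [not_le] at hlt
        have h1 : volume {ξ | τ * 2 ^ (-((k : ℝ) / p)) ≤ ‖g ξ‖} ≤ volume {ξ | t < ‖g ξ‖ₑ} := by
          refine measure_mono fun ξ hξ => ?_
          have hξ' : τ * 2 ^ (-((k : ℝ) / p)) ≤ ‖g ξ‖ := hξ
          show t < ‖g ξ‖ₑ
          rw [← ofReal_norm]
          exact hlt.trans_le (ENNReal.ofReal_le_ofReal hξ')
        have h2 := (hK k hkK).trans (h1.trans ht)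
        have h3 : b * 2 ^ k ≤ s := (ENNReal.ofReal_le_ofReal_iff hs0.le).1 h2
        exact absurd hs.2 (not_lt.2 h3)
      have h4 : (b * 2 ^ k / 2) ^ (1 / p) ≤ s ^ (1 / p) :=
        Real.rpow_le_rpow (by positivity) hs.1.le (by positivity)
      have h5 : ENNReal.ofReal ((b / 2) ^ (1 / p) * τ) ≤
          ENNReal.ofReal (s ^ (1 / p)) * rearr g s := by
        calc ENNReal.ofReal ((b / 2) ^ (1 / p) * τ)
            = ENNReal.ofReal ((b * 2 ^ k / 2) ^ (1 / p) * (τ * 2 ^ (-((k : ℝ) / p)))) := by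
              congr 1
              have e1 : b * 2 ^ k / 2 = (b / 2) * 2 ^ k := by ring
              rw [e1, Real.mul_rpow (by positivity) (by positivity), ← Real.rpow_natCast,
                ← Real.rpow_mul (by norm_num), Real.rpow_neg (by norm_num)]
              have e2 : (k : ℝ) * (1 / p) = k / p := by ring
              rw [e2]
              have : (0 : ℝ) < 2 ^ ((k : ℝ) / p) := by positivity
              field_simp
          _ = ENNReal.ofReal ((b * 2 ^ k / 2) ^ (1 / p)) *
                ENNReal.ofReal (τ * 2 ^ (-((k : ℝ) / p))) :=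
              ENNReal.ofReal_mul (by positivity)
          _ ≤ _ := mul_le_mul' (ENNReal.ofReal_le_ofReal h4) hr
      calc ENNReal.ofReal ((b / 2) ^ (q / p) * τ ^ q / (b * 2 ^ k))
          = (ENNReal.ofReal ((b / 2) ^ (1 / p) * τ)) ^ q / ENNReal.ofReal (b * 2 ^ k) := by
            rw [ENNReal.ofReal_rpow_of_pos (by positivity), ← ENNReal.ofReal_div_of_pos hk2]
            congr 2
            rw [Real.mul_rpow (by positivity) hτ.le, ← Real.rpow_mul (by positivity)]
            congr 2
            ring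
        _ ≤ F s := by
            rw [hF]
            exact ENNReal.div_le_div (ENNReal.rpow_le_rpow h5 hq.le)
              (ENNReal.ofReal_le_ofReal hs.2.le)
    calc ENNReal.ofReal ((b / 2) ^ (q / p) / 2 * τ ^ q)
        = ENNReal.ofReal ((b / 2) ^ (q / p) * τ ^ q / (b * 2 ^ k)) * volume (I k) := by
          rw [hI]
          simp only
          rw [Real.volume_Ioo, ← ENNReal.ofReal_mul (by positivity)]
          congr 1
          field_simp
          ring
      _ = ∫⁻ _ in I k, ENNReal.ofReal ((b / 2) ^ (q / p) * τ ^ q / (b * 2 ^ k)) :=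
          (setLIntegral_const _ _).symm
      _ ≤ ∫⁻ s in I k, F s := setLIntegral_mono' measurableSet_Ioo hlow
  calc ENNReal.ofReal ((b / 2) ^ (q / p) / 2 * τ ^ q * K.card)
      = ∑ k ∈ K, ENNReal.ofReal ((b / 2) ^ (q / p) / 2 * τ ^ q) := by
        rw [Finset.sum_const, nsmul_eq_mul, mul_comm,
          ENNReal.ofReal_mul (Nat.cast_nonneg _), ENNReal.ofReal_natCast]
    _ ≤ ∑ k ∈ K, ∫⁻ s in I k, F s := Finset.sum_le_sum hk
    _ = ∫⁻ s in ⋃ k ∈ K, I k, F s := (lintegral_biUnion_finset hdisj hmeas _).symm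
    _ ≤ lorq p q g := lintegral_mono_set hsub

end Pool.Agent.R244.LZ
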