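import Pool.Agent.R244.LZ.Stm

/-!
# Project LZ, piece LZ-2: trigonometric products on dyadic windows
-/

set_option autoImplicit false

open MeasureTheory Filter Topology
open scoped BigOperators Real ENNReal

namespace Pool.Agent.R244.LZ

namespace LZ2

variable {d : ℕ} [NeZero d]

theorem mm_eq (k : ℕ) (ι : Fin d) : mm d k ι = k / d + if (ι : ℕ) < k % d then 1 else 0 := by
  have hd : 0 < d := Nat.pos_of_ne_zero (NeZero.ne d)
  have h1 : mm d k ι = k.count (· ≡ (ι : ℕ) [MOD d]) := by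
    induction k with
    | zero => simp [mm]
    | succ k ih =>
      rw [Nat.count_succ, ← ih]
      show mm d k ι + _ = _
      congr 1
      have : (Fin.ofNat d k = ι) ↔ (k ≡ (ι : ℕ) [MOD d]) := by
        rw [Fin.ext_iff, Fin.val_ofNat, Nat.ModEq, Nat.mod_eq_of_lt ι.2]
      simp only [this]
  rw [h1, Nat.count_modEq_card _ hd, Nat.mod_eq_of_lt ι.2]

theorem mm_le (k : ℕ) (ι : Fin d) : mm d k ι ≤ k / d + 1 := by
  rw [mm_eq]; split_ifs <;> omega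

theorem mm_self (k : ℕ) : mm d k (Fin.ofNat d k) = k / d := by
  rw [mm_eq, Fin.val_ofNat, if_neg (lt_irrefl _), add_zero]

theorem mm_succ_self (k : ℕ) : mm d (k + 1) (Fin.ofNat d k) = k / d + 1 := by
  show mm d k (Fin.ofNat d k) + _ = _
  rw [mm_self, if_pos rfl]

theorem mm_succ_ne (k : ℕ) (ι : Fin d) (h : ι ≠ Fin.ofNat d k) : mm d (k + 1) ι = mm d k ι := by
  show mm d k ι + _ = _
  rw [if_neg (Ne.symm h), add_zero]

theorem mm_sum (k : ℕ) : ∑ ι, mm d k ι = k := by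
  induction k with
  | zero => simp [mm]
  | succ k ih =>
    show ∑ ι, (mm d k ι + if Fin.ofNat d k = ι then 1 else 0) = _
    rw [Finset.sum_add_distrib, ih, Finset.sum_ite_eq]
    simp

/-- the angle -/
noncomputable def th (ξ : E d) (i : ℕ) : ℝ := (1 / 2) ^ (i / d + 1) * ξ (Fin.ofNat d i)

theorem zz_eq (ξ : E d) (i : ℕ) :
    zz ξ i = Complex.exp (((-(2 * (π * th ξ i)) : ℝ) : ℂ) * Complex.I) := by
  unfold zz ch vv th
  rw [EuclideanSpace.inner_single_left]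
  congr 3
  simp
  ring

theorem norm_one_add (x : ℝ) :
    ‖1 + Complex.exp (((-(2 * x) : ℝ) : ℂ) * Complex.I)‖ = 2 * |Real.cos x| := by
  have h : ‖1 + Complex.exp (((-(2 * x) : ℝ) : ℂ) * Complex.I)‖ ^ 2 = (2 * |Real.cos x|) ^ 2 := by
    rw [Complex.sq_norm, Complex.normSq_apply, mul_pow, sq_abs]
    rw [Complex.add_re, Complex.add_im, Complex.exp_ofReal_mul_I_re, Complex.exp_ofReal_mul_I_im,
      Complex.one_re, Complex.one_im, Real.cos_neg, Real.sin_neg, Real.cos_two_mul,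
      Real.sin_two_mul]
    have := Real.sin_sq_add_cos_sq x
    nlinarith
  exact (pow_left_inj₀ (norm_nonneg _) (by positivity) two_ne_zero).1 h

theorem norm_one_sub (x : ℝ) :
    ‖1 - Complex.exp (((-(2 * x) : ℝ) : ℂ) * Complex.I)‖ = 2 * |Real.sin x| := by
  have h : ‖1 - Complex.exp (((-(2 * x) : ℝ) : ℂ) * Complex.I)‖ ^ 2 = (2 * |Real.sin x|) ^ 2 := by
    rw [Complex.sq_norm, Complex.normSq_apply, mul_pow, sq_abs]
    rw [Complex.sub_re, Complex.sub_im, Complex.exp_ofReal_mul_I_re, Complex.exp_ofReal_mul_I_im,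
      Complex.one_re, Complex.one_im, Real.cos_neg, Real.sin_neg, Real.cos_two_mul,
      Real.sin_two_mul]
    have := Real.sin_sq_add_cos_sq x
    have h2 : Real.cos x ^ 2 = 1 - Real.sin x ^ 2 := by linarith
    rw [h2]
    have h3 : (2 * Real.sin x * Real.cos x) ^ 2 = 4 * Real.sin x ^ 2 * (1 - Real.sin x ^ 2) := by
      rw [← h2]; ring
    nlinarith
  exact (pow_left_inj₀ (norm_nonneg _) (by positivity) two_ne_zero).1 h

theorem cc (ξ : E d) (i : ℕ) : ‖1 + zz ξ i‖ / 2 = |Real.cos (π * th ξ i)| := by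
  rw [zz_eq, norm_one_add]; ring

theorem ss (ξ : E d) (i : ℕ) : ‖1 - zz ξ i‖ = 2 * |Real.sin (π * th ξ i)| := by
  rw [zz_eq, norm_one_sub]

theorem cc_le (ξ : E d) (i : ℕ) : ‖1 + zz ξ i‖ / 2 ≤ 1 := by
  rw [cc]; exact Real.abs_cos_le_one _

theorem cc_nonneg (ξ : E d) (i : ℕ) : 0 ≤ ‖1 + zz ξ i‖ / 2 := by positivity

theorem ss_le (ξ : E d) (i : ℕ) : ‖1 - zz ξ i‖ ≤ 2 := by
  rw [ss]
  have := Real.abs_sin_le_one (π * th ξ i)
  linarith

/-- the potential -/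
noncomputable def SS (ξ : E d) (k : ℕ) : ℝ :=
  ∏ ι, |Real.sin (π * ((1 / 2) ^ (mm d k ι) * ξ ι))|

theorem SS_nonneg (ξ : E d) (k : ℕ) : 0 ≤ SS ξ k := Finset.prod_nonneg fun _ _ => abs_nonneg _

theorem SS_le_one (ξ : E d) (k : ℕ) : SS ξ k ≤ 1 :=
  Finset.prod_le_one (fun _ _ => abs_nonneg _) fun _ _ => Real.abs_sin_le_one _

theorem SS_rec (ξ : E d) (k : ℕ) : SS ξ k = 2 * (‖1 + zz ξ k‖ / 2) * SS ξ (k + 1) := by
  classical
  unfold SS
  rw [← Finset.mul_prod_erase _ _ (Finset.mem_univ (Fin.ofNat d k)),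
    ← Finset.mul_prod_erase Finset.univ
      (fun ι => |Real.sin (π * ((1 / 2) ^ (mm d (k + 1) ι) * ξ ι))|)
      (Finset.mem_univ (Fin.ofNat d k)), cc, mm_self, mm_succ_self]
  have h1 : ∏ x ∈ Finset.univ.erase (Fin.ofNat d k), |Real.sin (π * ((1 / 2) ^ (mm d k x) * ξ x))|
      = ∏ x ∈ Finset.univ.erase (Fin.ofNat d k),
        |Real.sin (π * ((1 / 2) ^ (mm d (k + 1) x) * ξ x))| := by
    refine Finset.prod_congr rfl fun x hx => ?_
    rw [mm_succ_ne k x (Finset.ne_of_mem_erase hx)]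
  rw [h1]
  have h2 : π * ((1 / 2) ^ (k / d) * ξ (Fin.ofNat d k)) = 2 * (π * th ξ k) := by
    unfold th; rw [pow_succ]; ring
  have h3 : π * ((1 / 2) ^ (k / d + 1) * ξ (Fin.ofNat d k)) = π * th ξ k := rfl
  rw [h2, h3, Real.sin_two_mul, abs_mul, abs_mul, abs_two]
  ring

theorem SS_prod (ξ : E d) {a k : ℕ} (h : a ≤ k) :
    (∏ i ∈ Finset.Ico a k, (‖1 + zz ξ i‖ / 2)) * 2 ^ (k - a) * SS ξ k = SS ξ a := by
  induction k, h using Nat.le_induction with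
  | base => simp
  | succ k hk ih =>
    rw [Finset.prod_Ico_succ_top hk, Nat.succ_sub hk, pow_succ, ← ih, SS_rec ξ k]
    ring

theorem prod_le_one' (ξ : E d) (a k : ℕ) : ∏ i ∈ Finset.Ico a k, (‖1 + zz ξ i‖ / 2) ≤ 1 :=
  Finset.prod_le_one (fun _ _ => cc_nonneg _ _) fun _ _ => cc_le _ _

theorem prod_nonneg' (ξ : E d) (a k : ℕ) : 0 ≤ ∏ i ∈ Finset.Ico a k, (‖1 + zz ξ i‖ / 2) :=
  Finset.prod_nonneg fun _ _ => cc_nonneg _ _

/-- coordinates on the window -/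
theorem win {k : ℕ} {ξ : E d} (h : ξ ∈ AA d k) (ι : Fin d) :
    1 / 8 ≤ (1 / 2) ^ (mm d k ι) * ξ ι ∧ (1 / 2) ^ (mm d k ι) * ξ ι ≤ 1 / 4 := by
  obtain ⟨h1, h2⟩ := h ι
  have hp : (1 / 2 : ℝ) ^ (mm d k ι) * 2 ^ (mm d k ι) = 1 := by
    rw [← mul_pow]; norm_num
  have hq : (0 : ℝ) < (1 / 2) ^ (mm d k ι) := by positivity
  constructor
  · have := mul_le_mul_of_nonneg_left h1 hq.le
    calc (1 / 8 : ℝ) = (1 / 2) ^ (mm d k ι) * (2 ^ (mm d k ι) / 8) := by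
          rw [← mul_div_assoc, hp]
      _ ≤ _ := this
  · have := mul_le_mul_of_nonneg_left h2 hq.le
    calc _ ≤ (1 / 2) ^ (mm d k ι) * (2 ^ (mm d k ι) / 4) := this
      _ = 1 / 4 := by rw [← mul_div_assoc, hp]

theorem coord_pos {k : ℕ} {ξ : E d} (h : ξ ∈ AA d k) (ι : Fin d) : 0 < ξ ι :=
  lt_of_lt_of_le (by positivity) (h ι).1

theorem sin_lower {y : ℝ} (h0 : 0 ≤ y) (h1 : y ≤ 1 / 2) : 2 * y ≤ |Real.sin (π * y)| := by
  have hpi := Real.pi_pos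
  have h2 : 2 / π * (π * y) ≤ Real.sin (π * y) :=
    Real.mul_le_sin (by positivity) (by nlinarith)
  have h3 : 2 / π * (π * y) = 2 * y := by field_simp
  rw [h3] at h2
  exact h2.trans (le_abs_self _)

theorem pow_mono_mm {k l : ℕ} (h : k ≤ l) (ι : Fin d) : mm d k ι ≤ mm d l ι := by
  induction l, h using Nat.le_induction with
  | base => exact le_rfl
  | succ l _ ih => exact ih.trans (Nat.le_add_right _ _)

theorem SS_win {k : ℕ} {ξ : E d} (h : ξ ∈ AA d k) : (1 / 4 : ℝ) ^ d ≤ SS ξ k := by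
  unfold SS
  have : (1 / 4 : ℝ) ^ d = ∏ _ι : Fin d, (1 / 4 : ℝ) := by simp
  rw [this]
  refine Finset.prod_le_prod (fun _ _ => by norm_num) fun ι _ => ?_
  obtain ⟨h1, h2⟩ := win h ι
  have := sin_lower (y := (1 / 2) ^ (mm d k ι) * ξ ι) (by linarith) (by linarith)
  linarith

theorem prod_up {a k : ℕ} (hak : a ≤ k) {ξ : E d} (h : ξ ∈ AA d k) :
    ∏ i ∈ Finset.Ico a k, (‖1 + zz ξ i‖ / 2) ≤ 4 ^ d * (1 / 2) ^ (k - a) := by
  have h1 := SS_prod ξ hak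
  have h2 := SS_win h
  have h3 := SS_le_one ξ a
  have h4 := prod_nonneg' ξ a k
  set P := ∏ i ∈ Finset.Ico a k, (‖1 + zz ξ i‖ / 2)
  have h5 : P * 2 ^ (k - a) * (1 / 4) ^ d ≤ 1 := by
    calc P * 2 ^ (k - a) * (1 / 4) ^ d ≤ P * 2 ^ (k - a) * SS ξ k := by gcongr
      _ ≤ 1 := by rw [h1]; exact h3
  have h6 : (4 : ℝ) ^ d * (1 / 4) ^ d = 1 := by rw [← mul_pow]; norm_num
  have h7 : (2 : ℝ) ^ (k - a) * (1 / 2) ^ (k - a) = 1 := by rw [← mul_pow]; norm_num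
  calc P = P * (2 ^ (k - a) * (1 / 2) ^ (k - a)) * (4 ^ d * (1 / 4) ^ d) := by
        rw [h6, h7]; ring
    _ = (4 ^ d * (1 / 2) ^ (k - a)) * (P * 2 ^ (k - a) * (1 / 4) ^ d) := by ring
    _ ≤ (4 ^ d * (1 / 2) ^ (k - a)) * 1 := by gcongr
    _ = _ := by ring

theorem half_prod (k : ℕ) : ∏ ι : Fin d, (1 / 2 : ℝ) ^ (mm d k ι) = (1 / 2) ^ k := by
  rw [Finset.prod_pow_eq_pow_sum, mm_sum]

theorem prod_low {k N : ℕ} (hkN : k < N) {ξ : E d} (h : ξ ∈ AA d k) :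
    (1 / 2 : ℝ) ^ d ≤ ∏ i ∈ Finset.Ico (k + 1) N, (‖1 + zz ξ i‖ / 2) := by
  have hpi := Real.pi_pos
  have h1 := SS_prod ξ (show k + 1 ≤ N from hkN)
  set P := ∏ i ∈ Finset.Ico (k + 1) N, (‖1 + zz ξ i‖ / 2)
  have hP : 0 ≤ P := prod_nonneg' ξ (k + 1) N
  set Ξ := ∏ ι, ξ ι with hΞ
  have hΞ0 : 0 < Ξ := Finset.prod_pos fun ι _ => coord_pos h ι
  -- lower bound at `k + 1`
  have hlow : 2 ^ d * ((1 / 2) ^ (k + 1) * Ξ) ≤ SS ξ (k + 1) := by
    have e : (2 : ℝ) ^ d * ((1 / 2) ^ (k + 1) * Ξ)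
        = ∏ ι, (2 * ((1 / 2) ^ (mm d (k + 1) ι) * ξ ι)) := by
      rw [Finset.prod_mul_distrib, Finset.prod_mul_distrib, half_prod, hΞ]
      simp
    rw [e]
    unfold SS
    refine Finset.prod_le_prod (fun ι _ => ?_) fun ι _ => ?_
    · have := coord_pos h ι
      positivity
    · have h0 := coord_pos h ι
      have h2 := (win h ι).2
      have h3 : (1 / 2 : ℝ) ^ (mm d (k + 1) ι) ≤ (1 / 2) ^ (mm d k ι) :=
        pow_le_pow_of_le_one (by norm_num) (by norm_num) (pow_mono_mm (Nat.le_succ k) ι)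
      have h4 : (1 / 2 : ℝ) ^ (mm d (k + 1) ι) * ξ ι ≤ 1 / 2 := by
        calc (1 / 2 : ℝ) ^ (mm d (k + 1) ι) * ξ ι ≤ (1 / 2) ^ (mm d k ι) * ξ ι := by gcongr
          _ ≤ 1 / 2 := by linarith
      exact sin_lower (by positivity) h4
  -- upper bound at `N`
  have hup : SS ξ N ≤ 4 ^ d * ((1 / 2) ^ N * Ξ) := by
    have e : (4 : ℝ) ^ d * ((1 / 2) ^ N * Ξ) = ∏ ι, (4 * ((1 / 2) ^ (mm d N ι) * ξ ι)) := by
      rw [Finset.prod_mul_distrib, Finset.prod_mul_distrib, half_prod, hΞ]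
      simp
    rw [e]
    unfold SS
    refine Finset.prod_le_prod (fun ι _ => abs_nonneg _) fun ι _ => ?_
    have h0 := coord_pos h ι
    have h2 : 0 ≤ (1 / 2 : ℝ) ^ (mm d N ι) * ξ ι := by positivity
    refine (Real.abs_sin_le_abs).trans ?_
    rw [abs_of_nonneg (by positivity)]
    have := Real.pi_le_four
    gcongr
  have h2 : 2 ^ d * ((1 / 2) ^ (k + 1) * Ξ) ≤ P * 2 ^ (N - (k + 1)) * (4 ^ d * ((1 / 2) ^ N * Ξ)) := by
    calc _ ≤ SS ξ (k + 1) := hlow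
      _ = P * 2 ^ (N - (k + 1)) * SS ξ N := h1.symm
      _ ≤ _ := by gcongr
  have h3 : (1 / 2 : ℝ) ^ N = (1 / 2) ^ (k + 1) * (1 / 2) ^ (N - (k + 1)) := by
    rw [← pow_add]; congr 1; omega
  have h4 : (2 : ℝ) ^ (N - (k + 1)) * (1 / 2) ^ (N - (k + 1)) = 1 := by
    rw [← mul_pow]; norm_num
  have h5 : P * 2 ^ (N - (k + 1)) * (4 ^ d * ((1 / 2) ^ N * Ξ))
      = (P * 4 ^ d) * ((1 / 2) ^ (k + 1) * Ξ) := by
    rw [h3]
    calc _ = P * 4 ^ d * ((1 / 2) ^ (k + 1) * Ξ) * (2 ^ (N - (k + 1)) * (1 / 2) ^ (N - (k + 1))) := by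
          ring
      _ = _ := by rw [h4, mul_one]
  rw [h5] at h2
  have h6 : (2 : ℝ) ^ d ≤ P * 4 ^ d := le_of_mul_le_mul_right h2 (by positivity)
  have h7 : (4 : ℝ) ^ d = 2 ^ d * 2 ^ d := by rw [← mul_pow]; norm_num
  rw [h7] at h6
  have h8 : (2 : ℝ) ^ d * 1 ≤ 2 ^ d * (P * 2 ^ d) := by
    rw [mul_one]; linarith
  have h9 := le_of_mul_le_mul_left h8 (by positivity)
  have h10 : (2 : ℝ) ^ d * (1 / 2) ^ d = 1 := by rw [← mul_pow]; norm_num
  calc (1 / 2 : ℝ) ^ d = 1 * (1 / 2) ^ d := by ring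
    _ ≤ (P * 2 ^ d) * (1 / 2) ^ d := by gcongr
    _ = P * (2 ^ d * (1 / 2) ^ d) := by ring
    _ = P := by rw [h10, mul_one]

theorem vol_AA (k : ℕ) : volume (AA d k) = ENNReal.ofReal (2 ^ k / 8 ^ d) := by
  have h1 : AA d k = (WithLp.ofLp : E d → (Fin d → ℝ)) ⁻¹'
      (Set.pi Set.univ fun ι => Set.Icc (2 ^ (mm d k ι) / 8) (2 ^ (mm d k ι) / 4)) := by
    ext ξ
    constructor
    · intro h ι _
      exact h ι
    · intro h ι
      exact h ι (Set.mem_univ ι)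
  rw [h1, (PiLp.volume_preserving_ofLp (Fin d)).measure_preimage
    ((MeasurableSet.univ_pi fun ι => measurableSet_Icc).nullMeasurableSet), volume_pi_pi]
  simp only [Real.volume_Icc]
  rw [← ENNReal.ofReal_prod_of_nonneg]
  · congr 1
    have : ∀ ι : Fin d, (2 : ℝ) ^ (mm d k ι) / 4 - 2 ^ (mm d k ι) / 8 = 2 ^ (mm d k ι) / 8 := by
      intro ι; ring
    simp only [this]
    rw [Finset.prod_div_distrib, Finset.prod_pow_eq_pow_sum, mm_sum]
    simp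
  · intro ι _
    have : (0 : ℝ) < 2 ^ (mm d k ι) := by positivity
    linarith

end LZ2

open LZ2 in
theorem stm2 : Stm2 := by
  intro d _ k N hkN
  have hd : 0 < d := Nat.pos_of_ne_zero (NeZero.ne d)
  refine ⟨vol_AA k, fun ξ hξ => ⟨?_, ?_, ?_, ?_, ?_, ?_⟩⟩
  · rw [norm_pos_iff]
    intro h0
    have := coord_pos hξ (Fin.ofNat d 0)
    rw [h0] at this
    simp at this
  · -- norm
    set B : ℝ := 2 ^ ((k : ℝ) / d) with hB
    have hB0 : 0 < B := by positivity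
    have hc : ∀ ι, |ξ ι| ≤ B := by
      intro ι
      rw [abs_of_pos (coord_pos hξ ι)]
      refine (hξ ι).2.trans ?_
      have h1 : (2 : ℝ) ^ (mm d k ι) ≤ 2 ^ (k / d + 1) :=
        pow_le_pow_right₀ (by norm_num) (mm_le k ι)
      have h2 : (2 : ℝ) ^ (k / d) ≤ B := by
        rw [hB, ← Real.rpow_natCast]
        exact Real.rpow_le_rpow_of_exponent_le (by norm_num) Nat.cast_div_le
      rw [pow_succ] at h1
      linarith
    rw [EuclideanSpace.norm_eq, Real.sqrt_le_left (by positivity)]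
    calc ∑ ι, ‖ξ ι‖ ^ 2 ≤ ∑ _ι : Fin d, B ^ 2 := by
          refine Finset.sum_le_sum fun ι _ => ?_
          rw [Real.norm_eq_abs]
          exact pow_le_pow_left₀ (abs_nonneg _) (hc ι) 2
      _ = d * B ^ 2 := by simp
      _ ≤ (d * B) ^ 2 := by
          have : (1 : ℝ) ≤ d := by exact_mod_cast hd
          rw [mul_pow]
          have h2 : (d : ℝ) ≤ (d : ℝ) ^ 2 := by nlinarith
          gcongr
  · intro j hj
    unfold bb
    have h1 := ss_le ξ j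
    have h2 := prod_nonneg' ξ (j + 1) N
    rcases Nat.lt_or_ge j k with hjk | hjk
    · have h3 : ∏ i ∈ Finset.Ico (j + 1) N, (‖1 + zz ξ i‖ / 2) ≤ 4 ^ d * (1 / 2) ^ (k - (j + 1)) := by
        rw [← Finset.prod_Ico_consecutive _ (show j + 1 ≤ k from hjk) hkN.le]
        calc _ ≤ (4 ^ d * (1 / 2) ^ (k - (j + 1))) * 1 :=
              mul_le_mul (prod_up hjk hξ) (prod_le_one' ξ k N) (prod_nonneg' ξ k N) (by positivity)
          _ = _ := mul_one _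
      calc (1 / 2 : ℝ) ^ (j + 1) * ‖1 - zz ξ j‖ * ∏ i ∈ Finset.Ico (j + 1) N, (‖1 + zz ξ i‖ / 2)
          ≤ (1 / 2) ^ (j + 1) * 2 * (4 ^ d * (1 / 2) ^ (k - (j + 1))) := by gcongr
        _ = 2 * 4 ^ d * ((1 / 2) ^ (j + 1) * (1 / 2) ^ (k - (j + 1))) := by ring
        _ = 2 * 4 ^ d * (1 / 2) ^ k := by
            rw [← pow_add]; congr 2; omega
    · obtain rfl : j = k := le_antisymm hj hjk
      have h3 := prod_le_one' ξ (j + 1) N
      have h4 : (1 : ℝ) ≤ 4 ^ d := one_le_pow₀ (by norm_num)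
      calc (1 / 2 : ℝ) ^ (j + 1) * ‖1 - zz ξ j‖ * ∏ i ∈ Finset.Ico (j + 1) N, (‖1 + zz ξ i‖ / 2)
          ≤ (1 / 2) ^ (j + 1) * 2 * 1 := by gcongr
        _ = 1 * (1 / 2) ^ j := by rw [pow_succ]; ring
        _ ≤ 2 * 4 ^ d * (1 / 2) ^ j := by gcongr; linarith
  · intro j
    unfold bb
    have h1 := ss_le ξ j
    have h2 := prod_nonneg' ξ (j + 1) N
    have h3 := prod_le_one' ξ (j + 1) N
    calc (1 / 2 : ℝ) ^ (j + 1) * ‖1 - zz ξ j‖ * ∏ i ∈ Finset.Ico (j + 1) N, (‖1 + zz ξ i‖ / 2)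
        ≤ (1 / 2) ^ (j + 1) * 2 * 1 := by gcongr
      _ = (1 / 2) ^ j := by rw [pow_succ]; ring
  · rw [Finset.range_eq_Ico, ← Finset.prod_Ico_consecutive _ (Nat.zero_le k) hkN.le]
    have := prod_up (Nat.zero_le k) hξ
    rw [Nat.sub_zero] at this
    calc _ ≤ (4 ^ d * (1 / 2) ^ k) * 1 :=
          mul_le_mul this (prod_le_one' ξ k N) (prod_nonneg' ξ k N) (by positivity)
      _ = _ := mul_one _
  · unfold bb
    have h1 := prod_low hkN hξ
    have h2 : (1 / 4 : ℝ) ≤ ‖1 - zz ξ k‖ := by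
      rw [ss]
      have h3 := win hξ (Fin.ofNat d k)
      rw [mm_self] at h3
      have h4 : th ξ k = (1 / 2) ^ (k / d) * ξ (Fin.ofNat d k) / 2 := by
        unfold th; rw [pow_succ]; ring
      have h5 : 1 / 16 ≤ th ξ k := by rw [h4]; linarith [h3.1]
      have h6 : th ξ k ≤ 1 / 8 := by rw [h4]; linarith [h3.2]
      have := sin_lower (y := th ξ k) (by linarith) (by linarith)
      linarith
    calc (1 / 8 : ℝ) * (1 / 2) ^ d * (1 / 2) ^ k = (1 / 2) ^ (k + 1) * (1 / 4) * (1 / 2) ^ d := by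
          rw [pow_succ]; ring
      _ ≤ _ := by gcongr

end Pool.Agent.R244.LZ
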