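import Pool.Agent.R244.LZ.Stm

/-!
# Project LZ, piece LZ-4: the boxes (helper560)
-/

set_option autoImplicit false

open MeasureTheory Filter Topology
open scoped BigOperators Real ENNReal

namespace Pool.Agent.R244.LZ

namespace P4aux

variable {d : ℕ} [NeZero d]

theorem dpos : 0 < d := Nat.pos_of_ne_zero (NeZero.ne d)

theorem mm_eq (k : ℕ) (ι : Fin d) : mm d k ι = (k + (d - 1 - ι)) / d := by
  have hd : 0 < d := dpos
  induction k with
  | zero =>
    simp only [mm]
    symm
    apply Nat.div_eq_of_lt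
    omega
  | succ k ih =>
    rw [mm, ih]
    have h1 : k + 1 + (d - 1 - (ι : ℕ)) = k + (d - 1 - (ι : ℕ)) + 1 := by omega
    rw [h1, Nat.succ_div]
    congr 1
    have hι := ι.2
    have h2 : (Fin.ofNat d k = ι) ↔ d ∣ k + (d - 1 - (ι : ℕ)) + 1 := by
      have h3 : k + (d - 1 - (ι : ℕ)) + 1 = k + (d - ι) := by omega
      rw [h3, Fin.ext_iff]
      change k % d = ι ↔ _
      constructor
      · intro h
        have h4 : k + (d - ι) = d * (k / d) + d := by
          have := Nat.div_add_mod k d
          omega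
        rw [h4]
        exact Dvd.dvd.add (dvd_mul_right _ _) (dvd_refl d)
      · rintro ⟨c, hc⟩
        have h5 : k = d * (c - 1) + ι := by
          rcases c with _ | c
          · omega
          · simp only [Nat.add_sub_cancel]
            have : d * (c + 1) = d * c + d := by ring
            omega
        rw [h5, Nat.mul_add_mod]
        exact Nat.mod_eq_of_lt hι
    simp only [h2]

theorem mm_self (k : ℕ) : mm d k (Fin.ofNat d k) = k / d := by
  have hd : 0 < d := dpos
  rw [mm_eq]
  change (k + (d - 1 - k % d)) / d = k / d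
  have h1 := Nat.div_add_mod k d
  have h2 := Nat.mod_lt k hd
  have h3 : k + (d - 1 - k % d) = (d - 1) + d * (k / d) := by omega
  rw [h3, Nat.add_mul_div_left _ _ hd, Nat.div_eq_of_lt (by omega), zero_add]

theorem mm_succ_self (k : ℕ) : mm d (k + 1) (Fin.ofNat d k) = k / d + 1 := by
  rw [mm, if_pos rfl, mm_self]

theorem mm_succ_ne (k : ℕ) (ι : Fin d) (h : Fin.ofNat d k ≠ ι) : mm d (k + 1) ι = mm d k ι := by
  rw [mm, if_neg h, add_zero]

theorem sum_mm (k : ℕ) : ∑ ι, mm d k ι = k := by
  induction k with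
  | zero => simp [mm]
  | succ k ih =>
    simp only [mm]
    rw [Finset.sum_add_distrib, ih]
    simp

theorem vv_self (k : ℕ) : (vv k : E d) (Fin.ofNat d k) = (1 / 2 : ℝ) ^ (k / d + 1) := by
  simp [vv]

theorem vv_ne (k : ℕ) (ι : Fin d) (h : Fin.ofNat d k ≠ ι) : (vv k : E d) ι = 0 := by
  simp only [vv, PiLp.single_apply]
  rw [if_neg (Ne.symm h)]

theorem box_eq (x : E d) (k : ℕ) : box x k = (WithLp.ofLp (p := 2) : E d → (Fin d → ℝ)) ⁻¹'
    (Set.univ.pi fun ι => Set.Ico (x ι) (x ι + (1 / 2) ^ (mm d k ι))) := by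
  ext y
  simp [box, Set.mem_pi]

theorem box_meas (x : E d) (k : ℕ) : MeasurableSet (box x k) := by
  rw [box_eq]
  exact (PiLp.volume_preserving_ofLp (Fin d)).measurable
    (MeasurableSet.univ_pi fun ι => measurableSet_Ico)

theorem box_vol (x : E d) (k : ℕ) : volume (box x k) = ENNReal.ofReal ((1 / 2) ^ k) := by
  rw [box_eq, (PiLp.volume_preserving_ofLp (Fin d)).measure_preimage
    (MeasurableSet.univ_pi fun ι => measurableSet_Ico).nullMeasurableSet, Real.volume_pi_Ico]
  have : ∀ ι : Fin d, ENNReal.ofReal (x ι + (1 / 2) ^ (mm d k ι) - x ι) =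
      ENNReal.ofReal ((1 / 2) ^ (mm d k ι)) := by
    intro ι; congr 1; ring
  rw [Finset.prod_congr rfl (fun ι _ => this ι),
    ← ENNReal.ofReal_prod_of_nonneg (fun ι _ => by positivity), Finset.prod_pow_eq_pow_sum, sum_mm]

theorem pow_half (n : ℕ) : (1 / 2 : ℝ) ^ n = (1 / 2) ^ (n + 1) + (1 / 2) ^ (n + 1) := by
  rw [pow_succ]; ring

theorem box_split (x : E d) (k : ℕ) : box x k = box x (k + 1) ∪ box (x + vv k) (k + 1) := by
  have hp : (0 : ℝ) < (1 / 2) ^ (k / d + 1) := by positivity
  ext y
  simp only [box, Set.mem_ofPred_eq, Set.mem_union]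
  constructor
  · intro h
    have h0 := h (Fin.ofNat d k)
    rw [mm_self, pow_half] at h0
    by_cases hc : y (Fin.ofNat d k) < x (Fin.ofNat d k) + (1 / 2) ^ (k / d + 1)
    · left
      intro ι
      by_cases hι : Fin.ofNat d k = ι
      · subst hι
        rw [mm_succ_self]
        exact ⟨h0.1, hc⟩
      · rw [mm_succ_ne k ι hι]
        exact h ι
    · right
      intro ι
      by_cases hι : Fin.ofNat d k = ι
      · subst hι
        rw [mm_succ_self, PiLp.add_apply, vv_self]
        exact ⟨not_lt.1 hc, by linarith [h0.2]⟩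
      · rw [mm_succ_ne k ι hι, PiLp.add_apply, vv_ne k ι hι, add_zero]
        exact h ι
  · rintro (h | h) ι
    · have h1 := h ι
      by_cases hι : Fin.ofNat d k = ι
      · subst hι
        rw [mm_succ_self] at h1
        rw [mm_self, pow_half]
        exact ⟨h1.1, by linarith [h1.2]⟩
      · rwa [mm_succ_ne k ι hι] at h1
    · have h1 := h ι
      by_cases hι : Fin.ofNat d k = ι
      · subst hι
        rw [mm_succ_self, PiLp.add_apply, vv_self] at h1
        rw [mm_self, pow_half]
        exact ⟨by linarith [h1.1], by linarith [h1.2]⟩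
      · rwa [mm_succ_ne k ι hι, PiLp.add_apply, vv_ne k ι hι, add_zero] at h1

theorem box_disj (x : E d) (k : ℕ) : Disjoint (box x (k + 1)) (box (x + vv k) (k + 1)) := by
  rw [Set.disjoint_left]
  intro y h1 h2
  have h3 := (h1 (Fin.ofNat d k)).2
  have h4 := (h2 (Fin.ofNat d k)).1
  rw [mm_succ_self] at h3
  rw [PiLp.add_apply, vv_self] at h4
  linarith

theorem RR_false (w : List Bool) : (RR (false :: w) : Set (E d)) = box (xx w) (w.length + 1) := by
  simp [RR, xx]

theorem RR_true (w : List Bool) :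
    (RR (true :: w) : Set (E d)) = box (xx w + vv w.length) (w.length + 1) := by
  simp [RR, xx]

theorem RR_split (w : List Bool) :
    (RR w : Set (E d)) = RR (false :: w) ∪ RR (true :: w) := by
  rw [RR_false, RR_true]
  exact box_split _ _

theorem RR_disj (w : List Bool) :
    Disjoint (RR (false :: w) : Set (E d)) (RR (true :: w)) := by
  rw [RR_false, RR_true]
  exact box_disj _ _

theorem RR_sub (b : Bool) (w : List Bool) : (RR (b :: w) : Set (E d)) ⊆ RR w := by
  rw [RR_split w]
  cases b
  · exact Set.subset_union_left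
  · exact Set.subset_union_right

theorem words_disj (N : ℕ) : ∀ w ∈ words N, ∀ w' ∈ words N, w ≠ w' →
    Disjoint (RR w : Set (E d)) (RR w') := by
  induction N with
  | zero =>
    intro w hw w' hw' hne
    simp only [words, Finset.mem_singleton] at hw hw'
    exact absurd (hw.trans hw'.symm) hne
  | succ N ih =>
    have key : ∀ w ∈ words (N + 1), ∃ b, ∃ u ∈ words N, w = b :: u := by
      intro w hw
      simp only [words, Finset.mem_union, Finset.mem_image] at hw
      rcases hw with ⟨u, hu, rfl⟩ | ⟨u, hu, rfl⟩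
      · exact ⟨_, u, hu, rfl⟩
      · exact ⟨_, u, hu, rfl⟩
    intro w hw w' hw' hne
    obtain ⟨b, u, hu, rfl⟩ := key w hw
    obtain ⟨b', u', hu', rfl⟩ := key w' hw'
    by_cases h : u = u'
    · subst h
      have hb : b ≠ b' := fun h => hne (by rw [h])
      cases b <;> cases b'
      · exact absurd rfl hb
      · exact RR_disj u
      · exact (RR_disj u).symm
      · exact absurd rfl hb
    · exact (ih u hu u' hu' h).mono (RR_sub b u) (RR_sub b' u')

omit [NeZero d] in
theorem ch_add (x y ξ : E d) : ch (x + y) ξ = ch x ξ * ch y ξ := by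
  unfold ch
  rw [← Complex.exp_add, inner_add_left]
  congr 1
  push_cast
  ring

theorem ch_xx (w : List Bool) (ξ : E d) : ch (xx w) ξ = Z (zz ξ) w := by
  induction w with
  | nil => simp [xx, ch, Z]
  | cons b w ih =>
    rw [xx, Z, ← ih, ch_add]
    congr 1
    cases b
    · simp [ch]
    · simp [zz]

theorem box_int (w : List Bool) (ξ : E d) :
    ∫ y in RR w, ch y ξ = Z (zz ξ) w * ∫ y in box 0 w.length, ch y ξ := by
  have e1 : ∫ y in RR w, ch y ξ = ∫ y, (RR w : Set (E d)).indicator (fun y => ch y ξ) y :=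
    (integral_indicator (box_meas _ _)).symm
  have e2 : ∫ y in box (0 : E d) w.length, ch y ξ =
      ∫ y, (box (0 : E d) w.length).indicator (fun y => ch y ξ) y :=
    (integral_indicator (box_meas _ _)).symm
  rw [e1, e2, ← integral_add_left_eq_self _ (xx w : E d), ← integral_const_mul]
  congr 1
  funext y
  by_cases h : y ∈ box (0 : E d) w.length
  · have h2 : xx w + y ∈ (box (xx w) w.length : Set (E d)) := by
      intro ι
      have := h ι
      simp only [PiLp.zero_apply, zero_add] at this
      rw [PiLp.add_apply]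
      exact ⟨by linarith [this.1], by linarith [this.2]⟩
    rw [Set.indicator_of_mem h, show (RR w : Set (E d)) = box (xx w) w.length from rfl,
      Set.indicator_of_mem h2, ch_add, ch_xx]
  · have h2 : xx w + y ∉ (box (xx w) w.length : Set (E d)) := by
      intro h3
      apply h
      intro ι
      have := h3 ι
      rw [PiLp.add_apply] at this
      simp only [PiLp.zero_apply, zero_add]
      exact ⟨by linarith [this.1], by linarith [this.2]⟩
    rw [Set.indicator_of_notMem h, show (RR w : Set (E d)) = box (xx w) w.length from rfl,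
      Set.indicator_of_notMem h2, mul_zero]

theorem four_pow (n : ℕ) (hn : 0 < n) : 4 * (n : ℝ) ≤ 4 ^ n := by
  induction n with
  | zero => omega
  | succ n ih =>
    rcases Nat.eq_zero_or_pos n with h | h
    · subst h; norm_num
    · have := ih h
      have h1 : (1 : ℝ) ≤ n := by exact_mod_cast h
      rw [pow_succ]
      push_cast
      linarith

theorem inner_small {k N : ℕ} (h : k + 2 * d * d ≤ N) {ξ y : E d} (hξ : ξ ∈ AA d k)
    (hy : y ∈ box (0 : E d) N) : 0 ≤ inner ℝ y ξ ∧ inner ℝ y ξ ≤ 1 / 16 := by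
  have hd : 0 < d := dpos
  have e : inner ℝ y ξ = ∑ ι, y ι * ξ ι := by
    rw [PiLp.inner_apply]
    refine Finset.sum_congr rfl fun ι _ => ?_
    simp [mul_comm]
  have hterm : ∀ ι, 0 ≤ y ι * ξ ι ∧ y ι * ξ ι ≤ (1 / 4) ^ d / 4 := by
    intro ι
    have h1 := hy ι
    have h2 := hξ ι
    simp only [PiLp.zero_apply, zero_add] at h1
    have h3 : (0 : ℝ) ≤ ξ ι := le_trans (by positivity) h2.1
    refine ⟨mul_nonneg h1.1 h3, ?_⟩
    have h4 : mm d k ι + 2 * d ≤ mm d N ι := by
      rw [mm_eq, mm_eq]
      have h5 : k + (d - 1 - (ι : ℕ)) + d * (2 * d) ≤ N + (d - 1 - ι) := by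
        have : d * (2 * d) = 2 * d * d := by ring
        omega
      have h6 := Nat.div_le_div_right (c := d) h5
      rwa [Nat.add_mul_div_left _ _ hd] at h6
    have h7 : y ι ≤ (1 / 2) ^ (mm d k ι + 2 * d) :=
      h1.2.le.trans (pow_le_pow_of_le_one (by norm_num) (by norm_num) h4)
    calc y ι * ξ ι ≤ (1 / 2) ^ (mm d k ι + 2 * d) * (2 ^ (mm d k ι) / 4) :=
          mul_le_mul h7 h2.2 h3 (by positivity)
      _ = (1 / 4) ^ d / 4 := by
          rw [pow_add, pow_mul, one_div_pow 2 (mm d k ι)]
          have : (2 : ℝ) ^ (mm d k ι) ≠ 0 := by positivity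
          field_simp
          norm_num
  constructor
  · rw [e]; exact Finset.sum_nonneg fun ι _ => (hterm ι).1
  · rw [e]
    calc ∑ ι, y ι * ξ ι ≤ ∑ _ι : Fin d, (1 / 4 : ℝ) ^ d / 4 := Finset.sum_le_sum fun ι _ => (hterm ι).2
      _ = d * ((1 / 4) ^ d / 4) := by simp
      _ ≤ 1 / 16 := by
          have h8 := four_pow d hd
          have h9 : (0 : ℝ) < 4 ^ d := by positivity
          rw [one_div_pow]
          rw [div_div, mul_one_div, div_le_div_iff₀ (by positivity) (by norm_num)]
          linarith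

theorem box_low {k N : ℕ} (h : k + 2 * d * d ≤ N) {ξ : E d} (hξ : ξ ∈ AA d k) :
    (1 / 2 : ℝ) ^ (N + 1) ≤ ‖∫ y in box 0 N, ch y ξ‖ := by
  have hfin : volume (box (0 : E d) N) ≠ ⊤ := by
    rw [box_vol]; exact ENNReal.ofReal_ne_top
  have hcont : Continuous fun y : E d => ch y ξ := by
    unfold ch
    fun_prop
  have hint : IntegrableOn (fun y => ch y ξ) (box (0 : E d) N) := by
    refine Measure.integrableOn_of_bounded (M := 1) hfin hcont.aestronglyMeasurable ?_
    refine Filter.Eventually.of_forall fun y => ?_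
    unfold ch
    rw [Complex.norm_exp_ofReal_mul_I]
  have hre : ∀ y : E d, (ch y ξ).re = Real.cos (2 * π * inner ℝ y ξ) := by
    intro y
    unfold ch
    rw [Complex.exp_ofReal_mul_I_re, Real.cos_neg]
  have h1 : ∫ y in box (0 : E d) N, (1 / 2 : ℝ) ≤ ∫ y in box (0 : E d) N, (ch y ξ).re := by
    refine setIntegral_mono_on (integrableOn_const hfin) hint.re (box_meas _ _) ?_
    intro y hy
    rw [hre]
    obtain ⟨h2, h3⟩ := inner_small h hξ hy
    rw [← Real.cos_pi_div_three]
    apply Real.cos_le_cos_of_nonneg_of_le_pi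
    · positivity
    · linarith [Real.pi_pos]
    · nlinarith [Real.pi_pos]
  have h4 : ∫ y in box (0 : E d) N, (1 / 2 : ℝ) = (1 / 2) ^ (N + 1) := by
    rw [setIntegral_const, Measure.real, box_vol, ENNReal.toReal_ofReal (by positivity), pow_succ,
      smul_eq_mul]
  have h5 : ∫ y in box (0 : E d) N, (ch y ξ).re = (∫ y in box (0 : E d) N, ch y ξ).re :=
    integral_re hint
  rw [← h4]
  exact h1.trans (h5.le.trans (Complex.re_le_norm _))

end P4aux

open P4aux in
theorem stm4 : Stm4 := by
  intro d _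
  refine ⟨fun w => ⟨box_meas _ _, box_vol _ _, RR_split w, RR_disj w⟩, words_disj, box_int, ?_⟩
  intro k N h ξ hξ
  exact box_low h hξ

end Pool.Agent.R244.LZ
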