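import Pool.Agent.R244.LZ.Stm

set_option autoImplicit false

open MeasureTheory Filter Topology
open scoped BigOperators Real ENNReal

namespace Pool.Agent.R244.LZ

namespace P7

variable {d : ℕ}

lemma ch_norm (x ξ : E d) : ‖ch x ξ‖ = 1 := by
  unfold ch
  rw [Complex.norm_exp_ofReal_mul_I]

lemma ch_cont : Continuous (fun p : E d × E d => ch p.1 p.2) := by
  unfold ch
  fun_prop

lemma ch_sub (x y ξ : E d) : ch (x - y) ξ = ch x ξ * (starRingEnd ℂ) (ch y ξ) := by
  unfold ch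
  rw [← Complex.exp_conj, ← Complex.exp_add]
  congr 1
  rw [map_mul, Complex.conj_ofReal, Complex.conj_I, inner_sub_left]
  push_cast
  ring

/-- a bounded jointly continuous kernel -/
structure Ker (K : E d → E d → ℂ) : Prop where
  cont : Continuous (fun p : E d × E d => K p.1 p.2)
  bd : ∀ x ξ, ‖K x ξ‖ ≤ 1

lemma Ker.cont_int {K : E d → E d → ℂ} (hK : Ker K) (ρ : Measure (E d)) [IsFiniteMeasure ρ] :
    Continuous (fun ξ => ∫ x, K x ξ ∂ρ) := by
  apply MeasureTheory.continuous_of_dominated (bound := fun _ => 1)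
  · intro ξ
    exact (hK.cont.comp (continuous_id.prodMk continuous_const)).aestronglyMeasurable
  · intro ξ
    exact Eventually.of_forall fun x => hK.bd x ξ
  · exact integrable_const _
  · exact Eventually.of_forall fun x => hK.cont.comp (continuous_const.prodMk continuous_id)

lemma Ker.int_bd {K : E d → E d → ℂ} (hK : Ker K) (ρ : Measure (E d)) [IsFiniteMeasure ρ] (ξ : E d) :
    ‖∫ x, K x ξ ∂ρ‖ ≤ ρ.real Set.univ := by
  have := norm_integral_le_of_norm_le_const (μ := ρ) (f := fun x => K x ξ) (C := 1)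
    (Eventually.of_forall fun x => hK.bd x ξ)
  simpa using this

lemma Ker.fub {K : E d → E d → ℂ} (hK : Ker K) (ρ : Measure (E d)) [IsFiniteMeasure ρ]
    {A : E d → ℂ} (hA : Integrable A) :
    ∫ ξ, A ξ * ∫ x, K x ξ ∂ρ = ∫ x, (∫ ξ, A ξ * K x ξ) ∂ρ := by
  have hi : Integrable (Function.uncurry fun ξ x => A ξ * K x ξ) ((volume : Measure (E d)).prod ρ) := by
    have h1 : Integrable (fun z : E d × E d => A z.1 * (1:ℂ)) ((volume : Measure (E d)).prod ρ) :=
      hA.mul_prod (integrable_const (1:ℂ))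
    have h2 := Integrable.mul_bdd (c := 1) (g := fun z : E d × E d => K z.2 z.1) h1
      ((hK.cont.comp (continuous_snd.prodMk continuous_fst)).aestronglyMeasurable)
      (Eventually.of_forall fun z => hK.bd z.2 z.1)
    refine h2.congr (Eventually.of_forall fun z => ?_)
    simp [Function.uncurry]
  rw [← integral_integral_swap hi]
  apply integral_congr_ae
  filter_upwards with ξ
  rw [← integral_const_mul]

lemma sint_fub {K : E d → E d → ℂ} (hK : Ker K) (μ : SignedMeasure (E d))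
    {A : E d → ℂ} (hA : Integrable A) :
    ∫ ξ, A ξ * sint μ (fun x => K x ξ) = sint μ (fun x => ∫ ξ, A ξ * K x ξ) := by
  unfold sint
  rw [← hK.fub _ hA, ← hK.fub _ hA, ← integral_sub]
  · apply integral_congr_ae
    filter_upwards with ξ
    ring
  · exact Integrable.mul_bdd hA (hK.cont_int _).aestronglyMeasurable
      (Eventually.of_forall fun ξ => hK.int_bd _ ξ)
  · exact Integrable.mul_bdd hA (hK.cont_int _).aestronglyMeasurable
      (Eventually.of_forall fun ξ => hK.int_bd _ ξ)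

lemma ker_ch : Ker (fun x ξ : E d => ch x ξ) := ⟨ch_cont, fun x ξ => (ch_norm x ξ).le⟩

lemma ker_conj : Ker (fun x ξ : E d => (starRingEnd ℂ) (ch x ξ)) :=
  ⟨Complex.continuous_conj.comp ch_cont, fun x ξ => by rw [Complex.norm_conj]; exact (ch_norm x ξ).le⟩

lemma ft_cont (μ : SignedMeasure (E d)) : Continuous (ft μ) := by
  have : ft μ = fun ξ => ∫ x, ch x ξ ∂μ.toJordanDecomposition.posPart -
      ∫ x, ch x ξ ∂μ.toJordanDecomposition.negPart := rfl
  rw [this]
  exact (ker_ch.cont_int _).sub (ker_ch.cont_int _)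

lemma conj_ft (μ : SignedMeasure (E d)) (ξ : E d) :
    (starRingEnd ℂ) (ft μ ξ) = sint μ (fun y => (starRingEnd ℂ) (ch y ξ)) := by
  unfold ft sint
  rw [map_sub, ← integral_conj, ← integral_conj]

lemma ft_bd (μ : SignedMeasure (E d)) (h : μ.totalVariation Set.univ ≤ ENNReal.ofReal 1) (F : E d → ℂ)
    (hF : ∀ x, ‖F x‖ ≤ 1) : ‖sint μ F‖ ≤ 1 := by
  have h1 : μ.toJordanDecomposition.posPart.real Set.univ +
      μ.toJordanDecomposition.negPart.real Set.univ ≤ 1 := by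
    have h2 : μ.toJordanDecomposition.posPart Set.univ +
      μ.toJordanDecomposition.negPart Set.univ ≤ ENNReal.ofReal 1 := h
    have h3 := ENNReal.toReal_mono ENNReal.ofReal_ne_top h2
    rw [ENNReal.toReal_add (measure_ne_top _ _) (measure_ne_top _ _)] at h3
    simpa [Measure.real] using h3
  have h4 := norm_integral_le_of_norm_le_const (μ := μ.toJordanDecomposition.posPart) (f := F) (C := 1)
    (Eventually.of_forall hF)
  have h5 := norm_integral_le_of_norm_le_const (μ := μ.toJordanDecomposition.negPart) (f := F) (C := 1)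
    (Eventually.of_forall hF)
  unfold sint
  refine le_trans (norm_sub_le _ _) ?_
  linarith

/-- the Gaussian weight -/
noncomputable def gw (t : ℝ) (ξ : E d) : ℝ := Real.exp (-(4 * π ^ 2 * t) * ‖ξ‖ ^ 2)

lemma gw_int {t : ℝ} (ht : 0 < t) : Integrable (fun ξ : E d => ((gw t ξ : ℝ) : ℂ)) := by
  have hb : 0 < (((4 * π ^ 2 * t : ℝ) : ℂ)).re := by
    rw [Complex.ofReal_re]; positivity
  have := GaussianFourier.integrable_cexp_neg_mul_sq_norm_add hb 0 (0 : E d)
  refine this.congr (Eventually.of_forall fun ξ => ?_)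
  simp only [gw]
  push_cast
  simp

lemma gw_ft {t : ℝ} (ht : 0 < t) (z : E d) :
    ∫ ξ : E d, ((gw t ξ : ℝ) : ℂ) * ch z ξ = ((heat t z : ℝ) : ℂ) := by
  have hb : 0 < (((4 * π ^ 2 * t : ℝ) : ℂ)).re := by
    rw [Complex.ofReal_re]; positivity
  have h := GaussianFourier.integral_cexp_neg_mul_sq_norm_add_of_euclideanSpace (ι := Fin d) hb
    (-(2 * π * Complex.I)) z
  have h1 : ∀ ξ : E d, ((gw t ξ : ℝ) : ℂ) * ch z ξ =
      Complex.exp (-(((4 * π ^ 2 * t : ℝ) : ℂ)) * ‖ξ‖ ^ 2 + -(2 * π * Complex.I) * (inner ℝ z ξ : ℝ)) := by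
    intro ξ
    unfold gw ch
    rw [Complex.ofReal_exp, ← Complex.exp_add]
    congr 1
    push_cast
    ring
  simp_rw [h1]
  rw [h]
  unfold heat
  have hpos : 0 < 4 * π * t := by positivity
  have e1 : ((π : ℂ) / ((4 * π ^ 2 * t : ℝ) : ℂ)) = (((4 * π * t)⁻¹ : ℝ) : ℂ) := by
    push_cast
    have : (π : ℂ) ≠ 0 := by exact_mod_cast Real.pi_ne_zero
    have ht' : (t : ℂ) ≠ 0 := by exact_mod_cast ht.ne'
    field_simp
  rw [e1]
  have e2 : ((Fintype.card (Fin d) : ℂ) / 2) = ((((d : ℝ) / 2 : ℝ)) : ℂ) := by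
    simp
  rw [e2, ← Complex.ofReal_cpow (by positivity), Complex.ofReal_mul ((4 * π * t) ^ (-(d : ℝ) / 2)),
    Complex.ofReal_exp]
  congr 1
  · rw [Real.inv_rpow hpos.le, ← Real.rpow_neg hpos.le]
    congr 2
    ring
  · congr 1
    push_cast
    have : (π : ℂ) ≠ 0 := by exact_mod_cast Real.pi_ne_zero
    have ht' : (t : ℂ) ≠ 0 := by exact_mod_cast ht.ne'
    field_simp
    rw [Complex.I_sq]
    ring

lemma energy (μ : SignedMeasure (E d)) (hμ : Bound (d : ℝ) 1 μ) {t : ℝ} (ht : 0 < t) :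
    ∫⁻ ξ, ENNReal.ofReal (gw t ξ) * ‖ft μ ξ‖ₑ ^ 2 ≤ 1 := by
  have hgi := gw_int (d := d) ht
  have hftbd : ∀ ξ, ‖ft μ ξ‖ ≤ 1 := fun ξ =>
    ft_bd μ hμ.1 _ (fun x => (ch_norm x ξ).le)
  have hconjc : Continuous (fun ξ => (starRingEnd ℂ) (ft μ ξ)) := Complex.continuous_conj.comp (ft_cont μ)
  have hA : Integrable (fun ξ : E d => ((gw t ξ : ℝ) : ℂ) * (starRingEnd ℂ) (ft μ ξ)) := by
    apply Integrable.mul_bdd (c := 1) hgi hconjc.aestronglyMeasurable
    filter_upwards with ξ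
    rw [Complex.norm_conj]; exact hftbd ξ
  have h1 : ∫ ξ, (((gw t ξ : ℝ) : ℂ) * (starRingEnd ℂ) (ft μ ξ)) * ft μ ξ =
      sint μ (fun x => flow μ t x) := by
    have h2 := sint_fub ker_ch μ hA
    have h3 : ∀ x : E d, ∫ ξ, (((gw t ξ : ℝ) : ℂ) * (starRingEnd ℂ) (ft μ ξ)) * ch x ξ = flow μ t x := by
      intro x
      have hB : Integrable (fun ξ : E d => ((gw t ξ : ℝ) : ℂ) * ch x ξ) := by
        apply Integrable.mul_bdd (c := 1) hgi
          ((ch_cont.comp (continuous_const.prodMk continuous_id)).aestronglyMeasurable)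
        filter_upwards with ξ
        exact (ch_norm x ξ).le
      have h4 := sint_fub ker_conj μ hB
      have h5 : ∀ y : E d, ∫ ξ, (((gw t ξ : ℝ) : ℂ) * ch x ξ) * (starRingEnd ℂ) (ch y ξ) =
          ((heat t (x - y) : ℝ) : ℂ) := by
        intro y
        rw [← gw_ft ht]
        apply integral_congr_ae
        filter_upwards with ξ
        rw [ch_sub]; ring
      simp_rw [h5] at h4
      unfold flow
      rw [← h4]
      apply integral_congr_ae
      filter_upwards with ξ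
      rw [conj_ft]; ring
    simp_rw [h3] at h2
    exact h2
  have h6 : ‖sint μ (fun x => flow μ t x)‖ ≤ 1 := by
    apply ft_bd μ hμ.1
    intro x
    have := hμ.2 t ht x
    simpa using this
  have h7 : ∀ ξ, (((gw t ξ : ℝ) : ℂ) * (starRingEnd ℂ) (ft μ ξ)) * ft μ ξ =
      ((gw t ξ * ‖ft μ ξ‖ ^ 2 : ℝ) : ℂ) := by
    intro ξ
    rw [mul_assoc, mul_comm ((starRingEnd ℂ) (ft μ ξ)), Complex.mul_conj, Complex.normSq_eq_norm_sq]
    push_cast
    ring
  simp_rw [h7] at h1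
  rw [integral_complex_ofReal] at h1
  rw [← h1, Complex.norm_real] at h6
  have hgw : ∀ ξ : E d, 0 ≤ gw t ξ := fun ξ => (Real.exp_pos _).le
  have hint : Integrable (fun ξ => gw t ξ * ‖ft μ ξ‖ ^ 2) := by
    have := (Integrable.mul_bdd (c := 1) hA (ft_cont μ).aestronglyMeasurable
      (Eventually.of_forall hftbd)).re
    refine this.congr (Eventually.of_forall fun ξ => ?_)
    show RCLike.re ((((gw t ξ : ℝ) : ℂ) * (starRingEnd ℂ) (ft μ ξ)) * ft μ ξ) = gw t ξ * ‖ft μ ξ‖ ^ 2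
    rw [h7]
    exact Complex.ofReal_re _
  have h8 : ∫⁻ ξ, ENNReal.ofReal (gw t ξ) * ‖ft μ ξ‖ₑ ^ 2 =
      ENNReal.ofReal (∫ ξ, gw t ξ * ‖ft μ ξ‖ ^ 2) := by
    rw [ofReal_integral_eq_lintegral_ofReal hint
      (Eventually.of_forall fun ξ => mul_nonneg (hgw ξ) (sq_nonneg _))]
    apply lintegral_congr
    intro ξ
    rw [ENNReal.ofReal_mul (hgw ξ), ENNReal.ofReal_pow (norm_nonneg _), ofReal_norm]
  rw [h8, ← ENNReal.ofReal_one]
  apply ENNReal.ofReal_le_ofReal
  exact le_trans (le_abs_self _) h6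

end P7

open P7 in
theorem stm7 : Stm7 := by
  intro d _ μ hμ
  refine ⟨ft_cont μ, ?_⟩
  have hlim : ∀ ξ : E d, Tendsto (fun n : ℕ => ENNReal.ofReal (gw (1 / ((n : ℝ) + 1)) ξ) * ‖ft μ ξ‖ₑ ^ 2)
      atTop (𝓝 (‖ft μ ξ‖ₑ ^ 2)) := by
    intro ξ
    have h1 : Tendsto (fun n : ℕ => gw (1 / ((n : ℝ) + 1)) ξ) atTop (𝓝 1) := by
      have h2 : Tendsto (fun n : ℕ => -(4 * π ^ 2 * (1 / ((n : ℝ) + 1))) * ‖ξ‖ ^ 2) atTop (𝓝 0) := by
        have := ((tendsto_one_div_add_atTop_nhds_zero_nat (𝕜 := ℝ)).const_mul (4 * π ^ 2)).neg.mul_const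
          (‖ξ‖ ^ 2)
        simpa using this
      have h3 := (Real.continuous_exp.tendsto 0).comp h2
      rw [Real.exp_zero] at h3
      exact h3
    have h4 : Tendsto (fun n : ℕ => ENNReal.ofReal (gw (1 / ((n : ℝ) + 1)) ξ)) atTop (𝓝 1) := by
      rw [← ENNReal.ofReal_one]
      exact ENNReal.tendsto_ofReal h1
    have h5 := ENNReal.Tendsto.mul_const (b := ‖ft μ ξ‖ₑ ^ 2) h4 (Or.inl one_ne_zero)
    rwa [one_mul] at h5
  have hmeas : ∀ n : ℕ, Measurable
      (fun ξ => ENNReal.ofReal (gw (1 / ((n : ℝ) + 1)) ξ) * ‖ft μ ξ‖ₑ ^ 2) := by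
    intro n
    have m1 : Measurable (fun ξ : E d => ENNReal.ofReal (gw (1 / ((n : ℝ) + 1)) ξ)) := by
      apply Measurable.ennreal_ofReal
      unfold gw
      fun_prop
    have m2 : Measurable (fun ξ : E d => ‖ft μ ξ‖ₑ ^ 2) := ((ft_cont μ).measurable.enorm).pow_const 2
    exact m1.mul m2
  calc ∫⁻ ξ, ‖ft μ ξ‖ₑ ^ 2
      = ∫⁻ ξ, liminf (fun n : ℕ => ENNReal.ofReal (gw (1 / ((n : ℝ) + 1)) ξ) * ‖ft μ ξ‖ₑ ^ 2) atTop := by
        apply lintegral_congr
        intro ξ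
        exact (hlim ξ).liminf_eq.symm
    _ ≤ liminf (fun n : ℕ => ∫⁻ ξ, ENNReal.ofReal (gw (1 / ((n : ℝ) + 1)) ξ) * ‖ft μ ξ‖ₑ ^ 2) atTop :=
        lintegral_liminf_le hmeas
    _ ≤ 1 := by
        apply Filter.liminf_le_of_frequently_le'
        apply Eventually.frequently
        exact Eventually.of_forall fun n => energy μ hμ (by positivity)

end Pool.Agent.R244.LZ
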