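import Pool.Agent.R244.LZ.Stm

set_option autoImplicit false

open MeasureTheory Filter Topology
open scoped BigOperators Real ENNReal

namespace Pool.Agent.R244.LZ

theorem stm8 : Stm8 := by
  intro d f hfm hf
  have i1 : IsFiniteMeasure ((volume : Measure (E d)).withDensity (fun x => ENNReal.ofReal (f x))) :=
    isFiniteMeasure_withDensity_ofReal hf.2
  have i2 : IsFiniteMeasure ((volume : Measure (E d)).withDensity (fun x => ENNReal.ofReal (-f x))) :=
    isFiniteMeasure_withDensity_ofReal hf.neg.2
  let j : JordanDecomposition (E d) :=
    { posPart := (volume : Measure (E d)).withDensity (fun x => ENNReal.ofReal (f x))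
      negPart := (volume : Measure (E d)).withDensity (fun x => ENNReal.ofReal (-f x))
      posPart_finite := i1
      negPart_finite := i2
      mutuallySingular := withDensity_ofReal_mutuallySingular hfm }
  have hj : j.toSignedMeasure.toJordanDecomposition = j :=
    JordanDecomposition.toJordanDecomposition_toSignedMeasure j
  refine ⟨j.toSignedMeasure, ?_, ?_⟩
  · unfold SignedMeasure.totalVariation
    rw [hj]
    show ((volume : Measure (E d)).withDensity (fun x => ENNReal.ofReal (f x)) +
      (volume : Measure (E d)).withDensity (fun x => ENNReal.ofReal (-f x))) Set.univ = _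
    rw [Measure.add_apply, withDensity_apply _ MeasurableSet.univ,
      withDensity_apply _ MeasurableSet.univ, Measure.restrict_univ,
      ← lintegral_add_left hfm.ennreal_ofReal,
      ofReal_integral_eq_lintegral_ofReal hf.abs (Eventually.of_forall fun x => abs_nonneg _)]
    apply lintegral_congr
    intro x
    rcases le_total 0 (f x) with h | h
    · rw [abs_of_nonneg h, ENNReal.ofReal_of_nonpos (by linarith : -f x ≤ 0), add_zero]
    · rw [abs_of_nonpos h, ENNReal.ofReal_of_nonpos h, zero_add]
  · intro φ hφ hB
    obtain ⟨B, hB⟩ := hB
    unfold sint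
    rw [hj]
    show ∫ x, φ x ∂(volume : Measure (E d)).withDensity (fun x => ENNReal.ofReal (f x)) -
      ∫ x, φ x ∂(volume : Measure (E d)).withDensity (fun x => ENNReal.ofReal (-f x)) = _
    have e1 : ∫ x, φ x ∂(volume : Measure (E d)).withDensity (fun x => ENNReal.ofReal (f x)) =
        ∫ x, ((max (f x) 0 : ℝ) : ℂ) * φ x := by
      rw [integral_withDensity_eq_integral_toReal_smul hfm.ennreal_ofReal
        (Eventually.of_forall fun x => ENNReal.ofReal_lt_top)]
      apply integral_congr_ae
      filter_upwards with x
      rw [ENNReal.toReal_ofReal', Complex.real_smul]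
    have e2 : ∫ x, φ x ∂(volume : Measure (E d)).withDensity (fun x => ENNReal.ofReal (-f x)) =
        ∫ x, ((max (-f x) 0 : ℝ) : ℂ) * φ x := by
      have hm : Measurable (fun x => ENNReal.ofReal (-f x)) := hfm.neg.ennreal_ofReal
      rw [integral_withDensity_eq_integral_toReal_smul hm
        (Eventually.of_forall fun x => ENNReal.ofReal_lt_top)]
      apply integral_congr_ae
      filter_upwards with x
      rw [ENNReal.toReal_ofReal', Complex.real_smul]
    have hpos : Integrable (fun x => max (f x) 0) := hf.pos_part
    have hneg : Integrable (fun x => max (-f x) 0) := hf.neg_part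
    have i3 : Integrable (fun x => ((max (f x) 0 : ℝ) : ℂ) * φ x) :=
      Integrable.mul_bdd (c := B) hpos.ofReal hφ.aestronglyMeasurable
        (Eventually.of_forall fun x => hB x)
    have i4 : Integrable (fun x => ((max (-f x) 0 : ℝ) : ℂ) * φ x) :=
      Integrable.mul_bdd (c := B) hneg.ofReal hφ.aestronglyMeasurable
        (Eventually.of_forall fun x => hB x)
    rw [e1, e2, ← integral_sub i3 i4]
    apply integral_congr_ae
    filter_upwards with x
    have : (f x : ℂ) = ((max (f x) 0 : ℝ) : ℂ) - ((max (-f x) 0 : ℝ) : ℂ) := by
      rw [← Complex.ofReal_sub]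
      congr 1
      rcases le_total 0 (f x) with h | h
      · rw [max_eq_left h, max_eq_right (by linarith), sub_zero]
      · rw [max_eq_right h, max_eq_left (by linarith)]; ring
    rw [this]
    ring

end Pool.Agent.R244.LZ
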