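import Pool.Agent.R244.LZ.Stm

/-!
# Project LZ: selection of the signs
-/

set_option autoImplicit false

open MeasureTheory Filter Topology
open scoped BigOperators Real ENNReal

namespace Pool.Agent.R244.LZ.Sel

lemma mean_mono (N : ℕ) (G H : Finset (List Bool) → ℝ) (h : ∀ ω, G ω ≤ H ω) :
    mean N G ≤ mean N H := by
  unfold mean
  gcongr with ω _
  exact h ω

lemma mean_const (N : ℕ) (c : ℝ) : mean N (fun _ => c) = c := by
  unfold mean
  rw [Finset.sum_const, Finset.card_powerset, nsmul_eq_mul]
  push_cast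
  rw [← mul_assoc, inv_mul_cancel₀ (by positivity), one_mul]

lemma mean_sum {ι : Type*} (N : ℕ) (s : Finset ι) (G : ι → Finset (List Bool) → ℝ) :
    mean N (fun ω => ∑ i ∈ s, G i ω) = ∑ i ∈ s, mean N (G i) := by
  unfold mean
  rw [Finset.sum_comm, Finset.mul_sum]

lemma mean_sub (N : ℕ) (G H : Finset (List Bool) → ℝ) :
    mean N (fun ω => G ω - H ω) = mean N G - mean N H := by
  unfold mean
  rw [Finset.sum_sub_distrib, mul_sub]

lemma mean_mul (N : ℕ) (c : ℝ) (G : Finset (List Bool) → ℝ) :
    mean N (fun ω => c * G ω) = c * mean N G := by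
  unfold mean
  rw [← Finset.mul_sum]; ring

lemma exists_ge_mean (N : ℕ) (G : Finset (List Bool) → ℝ) : ∃ ω, mean N G ≤ G ω := by
  by_contra hc
  push Not at hc
  have h1 : ∑ ω ∈ (VV N).powerset, G ω < ∑ ω ∈ (VV N).powerset, mean N G :=
    Finset.sum_lt_sum_of_nonempty ⟨∅, Finset.empty_mem_powerset _⟩ (fun ω _ => hc ω)
  rw [Finset.sum_const, Finset.card_powerset, nsmul_eq_mul] at h1
  unfold mean at h1
  push_cast at h1
  rw [← mul_assoc, mul_inv_cancel₀ (by positivity), one_mul] at h1
  exact lt_irrefl _ h1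

lemma continuous_Z {X : Type*} [TopologicalSpace X] (z : X → ℕ → ℂ) (hz : ∀ i, Continuous fun x => z x i)
    (w : List Bool) : Continuous fun x => Z (z x) w := by
  induction w with
  | nil => unfold Z; exact continuous_const
  | cons b w ih =>
    simp only [Z]
    apply ih.mul
    split_ifs
    · exact hz _
    · exact continuous_const

lemma continuous_zz {d : ℕ} [NeZero d] (i : ℕ) : Continuous fun ξ : E d => zz ξ i := by
  unfold zz ch; fun_prop

lemma continuous_S {d : ℕ} [NeZero d] (c : ℕ → ℂ) (N : ℕ) (ω : Finset (List Bool)) :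
    Continuous fun ξ : E d => S c (zz ξ) N ω := by
  unfold S
  apply continuous_const.mul
  apply continuous_finsetSum
  intro w _
  exact continuous_const.mul (continuous_Z _ continuous_zz w)

lemma isCompact_AA (d : ℕ) [NeZero d] (k : ℕ) : IsCompact (AA d k) := by
  have h : AA d k = (EuclideanSpace.equiv (Fin d) ℝ).toHomeomorph ⁻¹'
      (Set.pi Set.univ fun ι => Set.Icc ((2 : ℝ) ^ (mm d k ι) / 8) (2 ^ (mm d k ι) / 4)) := by
    ext ξ
    constructor
    · intro h ι _
      exact h ι
    · intro h ι
      exact h ι (Set.mem_univ ι)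
  rw [h, Homeomorph.isCompact_preimage]
  exact isCompact_univ_pi fun ι => isCompact_Icc

/-- the selection lemma -/
theorem selection (a b : ℝ) (ha : 0 < a) (hb : 0 < b) : ∃ c : ℝ, 0 < c ∧
    ∀ (d : ℕ) [NeZero d] (cc : ℕ → ℂ) (N : ℕ) (G : Finset ℕ) (σ : ℕ → ℝ),
      (∀ k, 0 < (volume (AA d k)).toReal) →
      (∀ k ∈ G, 0 < σ k) →
      (∀ k ∈ G, ∀ ξ ∈ AA d k, a * σ k ≤ mean N (fun ω => ‖S cc (zz ξ) N ω‖) ∧
        mean N (fun ω => ‖S cc (zz ξ) N ω‖ ^ 2) ≤ b * σ k ^ 2) →
      ∃ ω, ∃ K ⊆ G, c * G.card ≤ K.card ∧ ∀ k ∈ K,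
        c * (volume (AA d k)).toReal ≤
          (volume (AA d k ∩ {ξ | c * σ k ≤ ‖S cc (zz ξ) N ω‖})).toReal := by
  refine ⟨min (a / 8) (a ^ 2 / (4 * b)), by positivity, ?_⟩
  intro d _ cc N G σ hvol hσ hG
  set δ := a / (2 * b) with hδ
  have hδ0 : 0 < δ := by positivity
  set ψ : ℝ → ℝ := fun u => u - δ * u ^ 2 with hψ
  have hψle : ∀ u, ψ u ≤ b / (2 * a) := by
    intro u
    have : b / (2 * a) - ψ u = δ * (u - b / a) ^ 2 := by
      simp only [hψ, hδ]; field_simp; ring
    nlinarith [mul_nonneg hδ0.le (sq_nonneg (u - b / a))]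
  have hψc : Continuous ψ := by fun_prop
  set U : ℕ → Finset (List Bool) → E d → ℝ := fun k ω ξ => ‖S cc (zz ξ) N ω‖ / σ k with hU
  have hUc : ∀ k ω, Continuous (U k ω) := fun k ω => (continuous_S cc N ω).norm.div_const _
  set Ψ : ℕ → Finset (List Bool) → ℝ := fun k ω =>
    (volume (AA d k)).toReal⁻¹ * ∫ ξ in AA d k, ψ (U k ω ξ) with hΨ
  have hint : ∀ (k : ℕ) (f : E d → ℝ), Continuous f → IntegrableOn f (AA d k) :=
    fun k f hf => hf.continuousOn.integrableOn_compact (isCompact_AA d k)
  -- the mean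
  have hmean : ∀ k ∈ G, a / 2 ≤ mean N (Ψ k) := by
    intro k hk
    have h1 : mean N (Ψ k) = (volume (AA d k)).toReal⁻¹ *
        ∫ ξ in AA d k, mean N (fun ω => ψ (U k ω ξ)) := by
      simp only [hΨ]
      rw [mean_mul]
      congr 1
      unfold mean
      rw [integral_const_mul, integral_finsetSum]
      intro ω _
      exact hint k _ (hψc.comp (hUc k ω))
    rw [h1]
    have h2 : ∫ ξ in AA d k, (a / 2 : ℝ) ≤ ∫ ξ in AA d k, mean N (fun ω => ψ (U k ω ξ)) := by
      apply setIntegral_mono_on
      · exact hint k _ continuous_const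
      · apply hint k
        unfold mean
        exact continuous_const.mul (continuous_finsetSum _ fun ω _ => hψc.comp (hUc k ω))
      · exact (isCompact_AA d k).isClosed.measurableSet
      · intro ξ hξ
        obtain ⟨g1, g2⟩ := hG k hk ξ hξ
        have hs := hσ k hk
        simp only [hψ, hU]
        rw [mean_sub, mean_mul]
        have e1 : mean N (fun ω => ‖S cc (zz ξ) N ω‖ / σ k) =
            (σ k)⁻¹ * mean N (fun ω => ‖S cc (zz ξ) N ω‖) := by
          rw [← mean_mul]; congr 1; funext ω; ring
        have e2 : mean N (fun ω => (‖S cc (zz ξ) N ω‖ / σ k) ^ 2) =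
            (σ k ^ 2)⁻¹ * mean N (fun ω => ‖S cc (zz ξ) N ω‖ ^ 2) := by
          rw [← mean_mul]; congr 1; funext ω; ring
        rw [e1, e2]
        have f1 : a ≤ (σ k)⁻¹ * mean N (fun ω => ‖S cc (zz ξ) N ω‖) := by
          rw [← div_eq_inv_mul, le_div_iff₀ hs]; exact g1
        have f2 : (σ k ^ 2)⁻¹ * mean N (fun ω => ‖S cc (zz ξ) N ω‖ ^ 2) ≤ b := by
          rw [← div_eq_inv_mul, div_le_iff₀ (by positivity)]; exact g2
        have f3 : δ * b = a / 2 := by rw [hδ]; field_simp
        nlinarith
    rw [setIntegral_const, smul_eq_mul] at h2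
    have hv := hvol k
    rw [← div_eq_inv_mul, le_div_iff₀ hv]
    calc a / 2 * (volume (AA d k)).toReal = (volume.real (AA d k)) * (a / 2) := by
          rw [mul_comm]; rfl
      _ ≤ _ := h2
  obtain ⟨ω, hω⟩ := exists_ge_mean N (fun ω => ∑ k ∈ G, Ψ k ω)
  rw [mean_sum] at hω
  have hsum : (G.card : ℝ) * (a / 2) ≤ ∑ k ∈ G, Ψ k ω := by
    refine le_trans ?_ hω
    rw [← nsmul_eq_mul, ← Finset.sum_const]
    exact Finset.sum_le_sum hmean
  have hΨle : ∀ k, Ψ k ω ≤ b / (2 * a) := by
    intro k
    simp only [hΨ]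
    rw [← div_eq_inv_mul, div_le_iff₀ (hvol k)]
    calc ∫ ξ in AA d k, ψ (U k ω ξ) ≤ ∫ ξ in AA d k, (b / (2 * a) : ℝ) := by
          apply setIntegral_mono_on (hint k _ (hψc.comp (hUc k ω))) (hint k _ continuous_const)
            (isCompact_AA d k).isClosed.measurableSet
          intro ξ _; exact hψle _
      _ = _ := by rw [setIntegral_const, smul_eq_mul, mul_comm]; rfl
  set K := G.filter (fun k => a / 4 ≤ Ψ k ω) with hK
  refine ⟨ω, K, Finset.filter_subset _ _, ?_, ?_⟩
  · -- cardinality
    have h1 : ∑ k ∈ G, Ψ k ω ≤ K.card * (b / (2 * a)) + G.card * (a / 4) := by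
      rw [← Finset.sum_filter_add_sum_filter_not G (fun k => a / 4 ≤ Ψ k ω)]
      apply add_le_add
      · rw [← nsmul_eq_mul, ← Finset.sum_const]
        exact Finset.sum_le_sum fun k _ => hΨle k
      · calc ∑ k ∈ G.filter (fun k => ¬ a / 4 ≤ Ψ k ω), Ψ k ω
            ≤ ∑ k ∈ G.filter (fun k => ¬ a / 4 ≤ Ψ k ω), a / 4 := by
              apply Finset.sum_le_sum
              intro k hk
              exact (not_le.mp (Finset.mem_filter.mp hk).2).le
          _ = ((G.filter (fun k => ¬ a / 4 ≤ Ψ k ω)).card : ℝ) * (a / 4) := by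
              rw [Finset.sum_const, nsmul_eq_mul]
          _ ≤ _ := by
              gcongr
              exact Finset.filter_subset _ _
    have h2 : (G.card : ℝ) * (a / 4) ≤ K.card * (b / (2 * a)) := by linarith
    have h3 : a ^ 2 / (2 * b) * (G.card : ℝ) ≤ K.card := by
      have h4 := mul_le_mul_of_nonneg_right h2 (show (0 : ℝ) ≤ 2 * a / b by positivity)
      have e1 : (G.card : ℝ) * (a / 4) * (2 * a / b) = a ^ 2 / (2 * b) * G.card := by
        field_simp; ring
      have e2 : (K.card : ℝ) * (b / (2 * a)) * (2 * a / b) = K.card := by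
        field_simp
      rw [e1, e2] at h4
      exact h4
    refine le_trans ?_ h3
    gcongr
    refine (min_le_right _ _).trans ?_
    gcongr
    norm_num
  · intro k hk
    rw [hK, Finset.mem_filter] at hk
    obtain ⟨hkG, hk4⟩ := hk
    have hs := hσ k hkG
    have hv := hvol k
    have hAm : MeasurableSet (AA d k) := (isCompact_AA d k).isClosed.measurableSet
    have hfin : volume (AA d k) ≠ ⊤ := (isCompact_AA d k).measure_lt_top.ne
    set B := AA d k ∩ {ξ | a / 8 * σ k ≤ ‖S cc (zz ξ) N ω‖} with hB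
    have hBm : MeasurableSet B :=
      hAm.inter (measurableSet_le measurable_const (continuous_S cc N ω).norm.measurable)
    have hBsub : B ⊆ AA d k := Set.inter_subset_left
    have h1 : ∫ ξ in AA d k, ψ (U k ω ξ) ≤
        (volume B).toReal * (b / (2 * a)) + (volume (AA d k)).toReal * (a / 8) := by
      have hi := hint k _ (hψc.comp (hUc k ω))
      have hbound : ∀ ξ ∈ AA d k, ψ (U k ω ξ) ≤
          B.indicator (fun _ => b / (2 * a)) ξ + a / 8 := by
        intro ξ hξ
        by_cases hξB : ξ ∈ B
        · rw [Set.indicator_of_mem hξB]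
          have := hψle (U k ω ξ)
          linarith
        · rw [Set.indicator_of_notMem hξB, zero_add]
          have h2 : ‖S cc (zz ξ) N ω‖ < a / 8 * σ k := by
            by_contra hc
            exact hξB ⟨hξ, not_lt.mp hc⟩
          have h3 : U k ω ξ ≤ a / 8 := by
            simp only [hU]
            rw [div_le_iff₀ hs]; exact h2.le
          have h4 : ψ (U k ω ξ) ≤ U k ω ξ := by
            simp only [hψ]
            nlinarith [mul_nonneg hδ0.le (sq_nonneg (U k ω ξ))]
          linarith
      have hib : IntegrableOn (fun ξ => B.indicator (fun _ => b / (2 * a)) ξ + a / 8) (AA d k) := by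
        apply Integrable.add
        · exact (integrable_const_iff.mpr (Or.inr (by
            rw [isFiniteMeasure_restrict]; exact hfin))).indicator hBm
        · exact hint k _ continuous_const
      refine (setIntegral_mono_on hi hib hAm hbound).trans (le_of_eq ?_)
      rw [integral_add, setIntegral_const, integral_indicator hBm, Measure.restrict_restrict hBm,
        setIntegral_const, Set.inter_eq_left.mpr hBsub]
      · rfl
      · exact (integrable_const_iff.mpr (Or.inr (by
            rw [isFiniteMeasure_restrict]; exact hfin))).indicator hBm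
      · exact hint k _ continuous_const
    have h2 : a / 4 * (volume (AA d k)).toReal ≤ ∫ ξ in AA d k, ψ (U k ω ξ) := by
      have := hk4
      simp only [hΨ] at this
      rwa [← div_eq_inv_mul, le_div_iff₀ hv] at this
    have h3 : (volume (AA d k)).toReal * (a / 8) ≤ (volume B).toReal * (b / (2 * a)) := by
      linarith
    have h4 : a ^ 2 / (4 * b) * (volume (AA d k)).toReal ≤ (volume B).toReal := by
      have h5 := mul_le_mul_of_nonneg_right h3 (show (0 : ℝ) ≤ 2 * a / b by positivity)
      have e1 : (volume (AA d k)).toReal * (a / 8) * (2 * a / b) =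
          a ^ 2 / (4 * b) * (volume (AA d k)).toReal := by
        field_simp; ring
      have e2 : (volume B).toReal * (b / (2 * a)) * (2 * a / b) = (volume B).toReal := by
        field_simp
      rw [e1, e2] at h5
      exact h5
    calc min (a / 8) (a ^ 2 / (4 * b)) * (volume (AA d k)).toReal
        ≤ a ^ 2 / (4 * b) * (volume (AA d k)).toReal := by gcongr; exact min_le_right _ _
      _ ≤ (volume B).toReal := h4
      _ ≤ _ := by
        apply ENNReal.toReal_mono
        · exact ((measure_mono Set.inter_subset_left).trans_lt hfin.lt_top).ne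
        · apply measure_mono
          intro ξ hξ
          refine ⟨hξ.1, ?_⟩
          have := hξ.2
          simp only [Set.mem_ofPred_eq] at this ⊢
          refine le_trans ?_ this
          gcongr
          exact min_le_left _ _

end Pool.Agent.R244.LZ.Sel
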