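import Pool.Agent.R244.LZ.Stm

/-! LZ-6 (MP_8f79a4_an): upper bound for the Lorentz quasi-norm. -/

set_option autoImplicit false

open MeasureTheory Filter Topology
open scoped BigOperators Real ENNReal

namespace Pool.Agent.R244.LZ.Six

variable {d : ℕ}

lemma rearr_anti (g : E d → ℂ) : Antitone (rearr g) := by
  intro s s' h
  unfold rearr
  refine sInf_le_sInf ?_
  intro t ht
  exact le_trans ht (ENNReal.ofReal_le_ofReal h)

lemma rearr_le (g : E d → ℂ) (s : ℝ) (t : ℝ≥0∞)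
    (h : volume {ξ | t < ‖g ξ‖ₑ} ≤ ENNReal.ofReal s) : rearr g s ≤ t := sInf_le h

lemma cheb (h : E d → ℂ) (hc : Continuous h) (h1 : ∫⁻ ξ, ‖h ξ‖ₑ ^ 2 ≤ 1) (u : ℝ) (hu : 0 < u) :
    rearr h u ≤ ENNReal.ofReal (u ^ (-(1 / 2) : ℝ)) := by
  apply rearr_le
  have hm : AEMeasurable (fun ξ => ‖h ξ‖ₑ ^ 2) (volume : Measure (E d)) :=
    (hc.measurable.enorm.pow_const 2).aemeasurable
  have h2 := meas_ge_le_lintegral_div hm (ε := ENNReal.ofReal u⁻¹)
    (by
      rw [Ne, ENNReal.ofReal_eq_zero, not_le]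
      positivity) ENNReal.ofReal_ne_top
  calc volume {ξ | ENNReal.ofReal (u ^ (-(1 / 2) : ℝ)) < ‖h ξ‖ₑ}
      ≤ volume {ξ | ENNReal.ofReal u⁻¹ ≤ ‖h ξ‖ₑ ^ 2} := by
        apply measure_mono
        intro ξ hξ
        have hξ' : ENNReal.ofReal (u ^ (-(1 / 2) : ℝ)) < ‖h ξ‖ₑ := hξ
        show ENNReal.ofReal u⁻¹ ≤ ‖h ξ‖ₑ ^ 2
        have e : ENNReal.ofReal u⁻¹ = (ENNReal.ofReal (u ^ (-(1 / 2) : ℝ))) ^ 2 := by
          rw [← ENNReal.ofReal_pow (by positivity), ← Real.rpow_natCast, ← Real.rpow_mul hu.le]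
          congr 1
          rw [show (-(1 / 2) : ℝ) * ((2 : ℕ) : ℝ) = -1 by norm_num, Real.rpow_neg_one]
        rw [e]
        exact pow_le_pow_left₀ zero_le hξ'.le 2
    _ ≤ (∫⁻ ξ, ‖h ξ‖ₑ ^ 2) / ENNReal.ofReal u⁻¹ := h2
    _ ≤ 1 / ENNReal.ofReal u⁻¹ := ENNReal.div_le_div_right h1 _
    _ = ENNReal.ofReal u := by rw [one_div, ENNReal.ofReal_inv_of_pos hu, inv_inv]

lemma rearr_mul_le (α : ℝ) (hα : 0 < α) (h : E d → ℂ) (s : ℝ) (hs : 0 < s) (r : ℝ)
    (hr : 0 < r) (hvol : volume (Metric.ball (0 : E d) r) ≤ ENNReal.ofReal (s / 2)) :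
    rearr (fun ξ => (((2 * π * ‖ξ‖) ^ (-α) : ℝ) : ℂ) * h ξ) s ≤
      ENNReal.ofReal ((2 * π * r) ^ (-α)) * rearr h (s / 2) := by
  have hπ := Real.pi_pos
  have hc0 : ENNReal.ofReal ((2 * π * r) ^ (-α)) ≠ 0 := by
    rw [Ne, ENNReal.ofReal_eq_zero, not_le]
    positivity
  have hct : ENNReal.ofReal ((2 * π * r) ^ (-α)) ≠ ∞ := ENNReal.ofReal_ne_top
  refine (ENNReal.div_le_iff' hc0 hct).1 (le_sInf fun t ht => (ENNReal.div_le_iff' hc0 hct).2 ?_)
  have ht' : volume {ξ | t < ‖h ξ‖ₑ} ≤ ENNReal.ofReal (s / 2) := ht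
  apply rearr_le
  calc volume {ξ : E d | ENNReal.ofReal ((2 * π * r) ^ (-α)) * t <
        ‖(((2 * π * ‖ξ‖) ^ (-α) : ℝ) : ℂ) * h ξ‖ₑ}
      ≤ volume ({ξ : E d | t < ‖h ξ‖ₑ} ∪ Metric.ball (0 : E d) r) := by
        refine measure_mono fun ξ hξ => ?_
        by_contra hn
        rw [Set.mem_union, not_or] at hn
        obtain ⟨hn1, hn2⟩ := hn
        have hn1' : ‖h ξ‖ₑ ≤ t := not_lt.1 hn1
        have hn2' : r ≤ ‖ξ‖ := by
          rw [Metric.mem_ball, dist_zero_right, not_lt] at hn2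
          exact hn2
        have hξ' : ENNReal.ofReal ((2 * π * r) ^ (-α)) * t <
          ‖(((2 * π * ‖ξ‖) ^ (-α) : ℝ) : ℂ) * h ξ‖ₑ := hξ
        refine absurd hξ' (not_lt.2 ?_)
        rw [enorm_mul]
        refine mul_le_mul' ?_ hn1'
        rw [← ofReal_norm, Complex.norm_real, Real.norm_of_nonneg (by positivity)]
        refine ENNReal.ofReal_le_ofReal ?_
        refine Real.rpow_le_rpow_of_nonpos (by positivity) ?_ (by linarith)
        exact mul_le_mul_of_nonneg_left hn2' (by positivity)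
    _ ≤ volume {ξ : E d | t < ‖h ξ‖ₑ} + volume (Metric.ball (0 : E d) r) := measure_union_le _ _
    _ ≤ ENNReal.ofReal (s / 2) + ENNReal.ofReal (s / 2) := add_le_add ht' hvol
    _ = ENNReal.ofReal s := by
        rw [← ENNReal.ofReal_add (by positivity) (by positivity)]
        congr 1
        ring

/-- layer cake: `∫ h*(s/2)^2 ds ≤ 2 ∫ |h|^2` -/
lemma layer (h : E d → ℂ) (hc : Continuous h) (h1 : ∫⁻ ξ, ‖h ξ‖ₑ ^ 2 ≤ 1) :
    ∫⁻ s in Set.Ioi (0 : ℝ), rearr h (s / 2) ^ 2 ≤ 2 := by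
  have hfin : ∀ s : ℝ, 0 < s → rearr h (s / 2) ≠ ∞ := fun s hs =>
    ne_top_of_le_ne_top ENNReal.ofReal_ne_top (cheb h hc h1 (s / 2) (by positivity))
  set φ : ℝ → ℝ := fun s => (rearr h (s / 2)).toReal with hφ
  have hmφ : Measurable φ := by
    have : Antitone fun s : ℝ => rearr h (s / 2) := fun s s' hss =>
      rearr_anti h (div_le_div_of_nonneg_right hss (by norm_num))
    exact this.measurable.ennreal_toReal
  have e1 : ∫⁻ s in Set.Ioi (0 : ℝ), rearr h (s / 2) ^ 2 =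
      ∫⁻ s in Set.Ioi (0 : ℝ), ENNReal.ofReal (φ s ^ (2 : ℝ)) := by
    refine setLIntegral_congr_fun measurableSet_Ioi fun s hs => ?_
    simp only [hφ]
    rw [Real.rpow_two, ENNReal.ofReal_pow ENNReal.toReal_nonneg, ENNReal.ofReal_toReal (hfin s hs)]
  have e2 : ∫⁻ ξ, ‖h ξ‖ₑ ^ 2 = ∫⁻ ξ, ENNReal.ofReal (‖h ξ‖ ^ (2 : ℝ)) := by
    refine lintegral_congr fun ξ => ?_
    rw [Real.rpow_two, ENNReal.ofReal_pow (norm_nonneg _), ofReal_norm]
  rw [e1, lintegral_rpow_eq_lintegral_meas_lt_mul (volume.restrict (Set.Ioi (0 : ℝ)))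
    (Eventually.of_forall fun s => ENNReal.toReal_nonneg) hmφ.aemeasurable (by norm_num)]
  rw [e2, lintegral_rpow_eq_lintegral_meas_lt_mul volume
    (Eventually.of_forall fun s => norm_nonneg _) hc.norm.measurable.aemeasurable
    (by norm_num)] at h1
  have key : ∫⁻ t in Set.Ioi (0 : ℝ), (volume.restrict (Set.Ioi (0 : ℝ))) {a | t < φ a} *
        ENNReal.ofReal (t ^ ((2 : ℝ) - 1)) ≤
      2 * ∫⁻ t in Set.Ioi (0 : ℝ), (volume {a : E d | t < ‖h a‖}) *
        ENNReal.ofReal (t ^ ((2 : ℝ) - 1)) := by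
    rw [← lintegral_const_mul' _ _ (by norm_num)]
    refine setLIntegral_mono' measurableSet_Ioi fun t ht => ?_
    rw [← mul_assoc]
    refine mul_le_mul' ?_ le_rfl
    have ht0 : (0 : ℝ) < t := ht
    by_cases hinf : volume {a : E d | t < ‖h a‖} = ∞
    · rw [hinf]
      simp
    · rw [Measure.restrict_apply (measurableSet_lt measurable_const hmφ)]
      set m := (volume {a : E d | t < ‖h a‖}).toReal with hm
      have hsub : {a | t < φ a} ∩ Set.Ioi 0 ⊆ Set.Ioo 0 (2 * m) := by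
        rintro s ⟨hs1, hs0⟩
        refine ⟨hs0, ?_⟩
        by_contra hge
        rw [not_lt] at hge
        have hs1' : t < φ s := hs1
        have : rearr h (s / 2) ≤ ENNReal.ofReal t := by
          apply rearr_le
          have e3 : {ξ : E d | ENNReal.ofReal t < ‖h ξ‖ₑ} = {a : E d | t < ‖h a‖} := by
            ext ξ
            show ENNReal.ofReal t < ‖h ξ‖ₑ ↔ t < ‖h ξ‖
            rw [← ofReal_norm, ENNReal.ofReal_lt_ofReal_iff_of_nonneg ht0.le]
          rw [e3, ← ENNReal.ofReal_toReal hinf]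
          exact ENNReal.ofReal_le_ofReal (by linarith)
        have h5 : φ s ≤ t := by
          simp only [hφ]
          exact ENNReal.toReal_le_of_le_ofReal ht0.le this
        linarith
      calc volume ({a | t < φ a} ∩ Set.Ioi 0) ≤ volume (Set.Ioo (0 : ℝ) (2 * m)) :=
            measure_mono hsub
        _ = ENNReal.ofReal (2 * m) := by rw [Real.volume_Ioo, sub_zero]
        _ = 2 * volume {a : E d | t < ‖h a‖} := by
            rw [ENNReal.ofReal_mul (by norm_num), hm, ENNReal.ofReal_toReal hinf]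
            norm_num
  calc ENNReal.ofReal 2 * ∫⁻ t in Set.Ioi (0 : ℝ),
        (volume.restrict (Set.Ioi (0 : ℝ))) {a | t < φ a} * ENNReal.ofReal (t ^ ((2 : ℝ) - 1))
      ≤ ENNReal.ofReal 2 * (2 * ∫⁻ t in Set.Ioi (0 : ℝ), (volume {a : E d | t < ‖h a‖}) *
        ENNReal.ofReal (t ^ ((2 : ℝ) - 1))) := mul_le_mul' le_rfl key
    _ = 2 * (ENNReal.ofReal 2 * ∫⁻ t in Set.Ioi (0 : ℝ), (volume {a : E d | t < ‖h a‖}) *
        ENNReal.ofReal (t ^ ((2 : ℝ) - 1))) := by ring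
    _ ≤ 2 * 1 := mul_le_mul' le_rfl h1
    _ = 2 := by norm_num

end Pool.Agent.R244.LZ.Six

namespace Pool.Agent.R244.LZ
open Six

theorem stm6 : Stm6 := by
  intro d _ α q hα hq
  have hπ := Real.pi_pos
  have hd : (0 : ℝ) < d := by
    have : d ≠ 0 := NeZero.ne d
    positivity
  set V : ℝ := (volume (Metric.ball (0 : E d) 1)).toReal with hV
  have hVfin : volume (Metric.ball (0 : E d) 1) ≠ ∞ := measure_ball_lt_top.ne
  have hVpos : 0 < V := ENNReal.toReal_pos (Metric.measure_ball_pos volume 0 one_pos).ne' hVfin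
  set C1 : ℝ := (2 * π) ^ (-α) * (2 * V) ^ (α / d) * 2 ^ (1 / 2 : ℝ) with hC1
  have hC1pos : 0 < C1 := by positivity
  have hq0 : 0 < q := by linarith
  refine ⟨C1, hC1pos.le, ?_⟩
  intro h hc h1
  set g : E d → ℂ := fun ξ => (((2 * π * ‖ξ‖) ^ (-α) : ℝ) : ℂ) * h ξ with hg
  have hmain : ∀ s ∈ Set.Ioi (0 : ℝ),
      (ENNReal.ofReal (s ^ (1 / (2 * (d : ℝ) / (2 * α + d)))) * rearr g s) ^ q /
        ENNReal.ofReal s ≤ ENNReal.ofReal (C1 ^ q / 2) * rearr h (s / 2) ^ 2 := by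
    intro s hs
    have hs0 : (0 : ℝ) < s := hs
    set r : ℝ := (s / (2 * V)) ^ ((d : ℝ)⁻¹) with hr
    have hrpos : 0 < r := by positivity
    have hball : volume (Metric.ball (0 : E d) r) ≤ ENNReal.ofReal (s / 2) := by
      rw [Measure.addHaar_ball _ _ hrpos.le, finrank_euclideanSpace_fin, hr,
        Real.rpow_inv_natCast_pow (by positivity) (NeZero.ne d), ← ENNReal.ofReal_toReal hVfin,
        ← hV, ← ENNReal.ofReal_mul (by positivity)]
      apply le_of_eq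
      congr 1
      field_simp
    have hR := rearr_mul_le α hα h s hs0 r hrpos hball
    set R := rearr h (s / 2) with hRdef
    have hY : ENNReal.ofReal ((s / 2) ^ (1 / 2 : ℝ)) * R ≤ 1 := by
      calc ENNReal.ofReal ((s / 2) ^ (1 / 2 : ℝ)) * R
          ≤ ENNReal.ofReal ((s / 2) ^ (1 / 2 : ℝ)) * ENNReal.ofReal ((s / 2) ^ (-(1 / 2) : ℝ)) :=
            mul_le_mul' le_rfl (cheb h hc h1 (s / 2) (by positivity))
        _ = 1 := by
            rw [← ENNReal.ofReal_mul (by positivity), ← Real.rpow_add (by positivity)]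
            norm_num
    have hconst : s ^ (1 / (2 * (d : ℝ) / (2 * α + d))) * (2 * π * r) ^ (-α) =
        C1 * (s / 2) ^ (1 / 2 : ℝ) := by
      have e1 : 1 / (2 * (d : ℝ) / (2 * α + d)) = α / d + 1 / 2 := by
        field_simp
      rw [e1, Real.rpow_add hs0, Real.mul_rpow (by positivity) hrpos.le, hr,
        ← Real.rpow_mul (by positivity)]
      have e2 : (d : ℝ)⁻¹ * (-α) = -(α / d) := by field_simp
      rw [e2, Real.div_rpow hs0.le (by positivity), Real.div_rpow hs0.le (by norm_num),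
        Real.rpow_neg hs0.le (α / d), Real.rpow_neg (by positivity : (0 : ℝ) ≤ 2 * V) (α / d), hC1]
      have h2 : (0 : ℝ) < 2 ^ (1 / 2 : ℝ) := by positivity
      have h3 : (0 : ℝ) < s ^ (α / d) := by positivity
      have h4 : (0 : ℝ) < (2 * V) ^ (α / d) := by positivity
      field_simp
    have hbound : ENNReal.ofReal (s ^ (1 / (2 * (d : ℝ) / (2 * α + d)))) * rearr g s ≤
        ENNReal.ofReal C1 * (ENNReal.ofReal ((s / 2) ^ (1 / 2 : ℝ)) * R) := by
      calc ENNReal.ofReal (s ^ (1 / (2 * (d : ℝ) / (2 * α + d)))) * rearr g s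
          ≤ ENNReal.ofReal (s ^ (1 / (2 * (d : ℝ) / (2 * α + d)))) *
              (ENNReal.ofReal ((2 * π * r) ^ (-α)) * R) := mul_le_mul' le_rfl hR
        _ = _ := by
            rw [← mul_assoc, ← mul_assoc, ← ENNReal.ofReal_mul (by positivity),
              ← ENNReal.ofReal_mul hC1pos.le, hconst]
    calc (ENNReal.ofReal (s ^ (1 / (2 * (d : ℝ) / (2 * α + d)))) * rearr g s) ^ q /
          ENNReal.ofReal s
        ≤ (ENNReal.ofReal C1 * (ENNReal.ofReal ((s / 2) ^ (1 / 2 : ℝ)) * R)) ^ q /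
            ENNReal.ofReal s := ENNReal.div_le_div_right (ENNReal.rpow_le_rpow hbound hq0.le) _
      _ = ENNReal.ofReal (C1 ^ q) * (ENNReal.ofReal ((s / 2) ^ (1 / 2 : ℝ)) * R) ^ q /
            ENNReal.ofReal s := by
          rw [ENNReal.mul_rpow_of_nonneg _ _ hq0.le, ENNReal.ofReal_rpow_of_pos hC1pos]
      _ ≤ ENNReal.ofReal (C1 ^ q) * (ENNReal.ofReal ((s / 2) ^ (1 / 2 : ℝ)) * R) ^ (2 : ℝ) /
            ENNReal.ofReal s :=
          ENNReal.div_le_div_right (mul_le_mul' le_rfl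
            (ENNReal.rpow_le_rpow_of_exponent_ge hY hq)) _
      _ = ENNReal.ofReal (C1 ^ q / 2) * R ^ 2 := by
          rw [ENNReal.rpow_two, mul_pow, ← ENNReal.ofReal_pow (by positivity),
            ← Real.rpow_natCast ((s / 2) ^ (1 / 2 : ℝ)), ← Real.rpow_mul (by positivity)]
          have e3 : (1 / 2 : ℝ) * ((2 : ℕ) : ℝ) = 1 := by norm_num
          rw [e3, Real.rpow_one, ENNReal.div_eq_inv_mul, ← mul_assoc, ← mul_assoc,
            ← ENNReal.ofReal_inv_of_pos hs0, ← ENNReal.ofReal_mul (by positivity),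
            ← ENNReal.ofReal_mul (by positivity)]
          congr 2
          field_simp
  have hl : lorq (2 * d / (2 * α + d)) q g ≤ ENNReal.ofReal (C1 ^ q) := by
    calc lorq (2 * d / (2 * α + d)) q g
        ≤ ∫⁻ s in Set.Ioi (0 : ℝ), ENNReal.ofReal (C1 ^ q / 2) * rearr h (s / 2) ^ 2 :=
          setLIntegral_mono' measurableSet_Ioi hmain
      _ = ENNReal.ofReal (C1 ^ q / 2) * ∫⁻ s in Set.Ioi (0 : ℝ), rearr h (s / 2) ^ 2 :=
          lintegral_const_mul' _ _ ENNReal.ofReal_ne_top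
      _ ≤ ENNReal.ofReal (C1 ^ q / 2) * 2 := mul_le_mul' le_rfl (layer h hc h1)
      _ = ENNReal.ofReal (C1 ^ q) := by
          rw [show (2 : ℝ≥0∞) = ENNReal.ofReal 2 by norm_num, ← ENNReal.ofReal_mul (by positivity)]
          congr 1
          ring
  unfold lor
  calc (lorq (2 * d / (2 * α + d)) q g) ^ (1 / q) ≤ (ENNReal.ofReal (C1 ^ q)) ^ (1 / q) :=
        ENNReal.rpow_le_rpow hl (by positivity)
    _ = ENNReal.ofReal C1 := by
        rw [ENNReal.ofReal_rpow_of_pos (by positivity), ← Real.rpow_mul hC1pos.le]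
        congr 1
        rw [mul_one_div_cancel hq0.ne', Real.rpow_one]

end Pool.Agent.R244.LZ
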