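import Pool.Agent.R244.LZ.Defs

/-!
# Project LZ: statements of the pieces (proofs in NOTES.md)
-/

set_option autoImplicit false

open MeasureTheory Filter Topology
open scoped BigOperators Real ENNReal

namespace Pool.Agent.R244.LZ

/-! ### words and random cascades -/

/-- the words of length `k` -/
def words : ℕ → Finset (List Bool)
  | 0 => {[]}
  | k + 1 => (words k).image (List.cons false) ∪ (words k).image (List.cons true)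

/-- the words of length `< N` -/
def VV (N : ℕ) : Finset (List Bool) := (Finset.range N).biUnion words

/-- the sign of the word `w`: `-1` if `w ∈ ω` and `1` otherwise -/
noncomputable def sg (ω : Finset (List Bool)) (w : List Bool) : ℂ := if w ∈ ω then -1 else 1

/-- the cascade `F(b :: w) = F(w) (1 ± sg(w) c_{|w|})`, `+` for `b = false`, `-` for `b = true` -/
noncomputable def F (c : ℕ → ℂ) (ω : Finset (List Bool)) : List Bool → ℂ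
  | [] => 1
  | b :: w => F c ω w * (1 + (if b then -1 else 1) * (sg ω w * c w.length))

/-- `Z(w) = ∏ z_j` over the `j` with digit number `j` equal to `true` -/
noncomputable def Z (z : ℕ → ℂ) : List Bool → ℂ
  | [] => 1
  | b :: w => Z z w * (if b then z w.length else 1)

/-- the (normalized) transform of the cascade -/
noncomputable def S (c z : ℕ → ℂ) (N : ℕ) (ω : Finset (List Bool)) : ℂ :=
  (1 / 2 : ℂ) ^ N * ∑ w ∈ words N, F c ω w * Z z w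

/-- the mean over all choices `ω ⊆ VV N` of the signs -/
noncomputable def mean (N : ℕ) (G : Finset (List Bool) → ℝ) : ℝ :=
  ((2 : ℝ) ^ (VV N).card)⁻¹ * ∑ ω ∈ (VV N).powerset, G ω

/-- `b_k = 2^(-k-1) |1 - z_k| ∏_{k<i<N} |1 + z_i| / 2` -/
noncomputable def bb (z : ℕ → ℂ) (N k : ℕ) : ℝ :=
  (1 / 2 : ℝ) ^ (k + 1) * ‖1 - z k‖ * ∏ i ∈ Finset.Ico (k + 1) N, (‖1 + z i‖ / 2)

/-- `P_k = ∏_{j<k} (1 + |c_j|²)` -/
noncomputable def PP (c : ℕ → ℂ) (k : ℕ) : ℝ := ∏ j ∈ Finset.range k, (1 + ‖c j‖ ^ 2)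

/-- LZ-1: first and second moments. -/
def Stm1 : Prop := ∀ (c z : ℕ → ℂ) (N : ℕ), (∀ i, ‖z i‖ = 1) →
  (∀ k < N, (√3)⁻¹ * (‖c k‖ * bb z N k * √(2 ^ k * PP c k)) ≤ mean N (fun ω => ‖S c z N ω‖)) ∧
  mean N (fun ω => ‖S c z N ω‖ ^ 2) = (∏ i ∈ Finset.range N, (‖1 + z i‖ / 2)) ^ 2 +
    ∑ j ∈ Finset.range N, ‖c j‖ ^ 2 * bb z N j ^ 2 * (2 ^ j * PP c j)

/-! ### bisections of the unit cube -/

section geometry

variable (d : ℕ) [NeZero d]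

/-- the number of bisections of the coordinate `ι` in the first `k` steps (step `j` bisects the
coordinate `j % d`) -/
def mm : ℕ → Fin d → ℕ
  | 0, _ => 0
  | k + 1, ι => mm k ι + if Fin.ofNat d k = ι then 1 else 0

/-- the frequency window number `k` -/
def AA (k : ℕ) : Set (E d) := {ξ | ∀ ι, (2 : ℝ) ^ (mm d k ι) / 8 ≤ ξ ι ∧ ξ ι ≤ 2 ^ (mm d k ι) / 4}

variable {d}

/-- the shift of step `k` -/
noncomputable def vv (k : ℕ) : E d :=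
  EuclideanSpace.single (Fin.ofNat d k) ((1 / 2 : ℝ) ^ (k / d + 1))

/-- `z_k(ξ) = exp(-2πi v_k·ξ)` -/
noncomputable def zz (ξ : E d) (k : ℕ) : ℂ := ch (vv k) ξ

/-- the corner of the box of the word `w` -/
noncomputable def xx : List Bool → E d
  | [] => 0
  | b :: w => xx w + if b then vv w.length else 0

/-- the box with corner `x` and sides `2^(-mm k ι)` -/
def box (x : E d) (k : ℕ) : Set (E d) := {y | ∀ ι, x ι ≤ y ι ∧ y ι < x ι + (1 / 2) ^ (mm d k ι)}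

/-- the box of the word `w` -/
def RR (w : List Bool) : Set (E d) := box (xx w) w.length

end geometry

/-- LZ-2: trigonometric estimates on the windows. -/
def Stm2 : Prop := ∀ (d : ℕ) [NeZero d] (k N : ℕ), k < N →
  volume (AA d k) = ENNReal.ofReal (2 ^ k / 8 ^ d) ∧ ∀ ξ ∈ AA d k,
    0 < ‖ξ‖ ∧ ‖ξ‖ ≤ d * 2 ^ ((k : ℝ) / d) ∧
    (∀ j ≤ k, bb (zz ξ) N j ≤ 2 * 4 ^ d * (1 / 2) ^ k) ∧
    (∀ j, bb (zz ξ) N j ≤ (1 / 2) ^ j) ∧
    (∏ i ∈ Finset.range N, (‖1 + zz ξ i‖ / 2)) ≤ 4 ^ d * (1 / 2) ^ k ∧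
    1 / 8 * (1 / 2) ^ d * (1 / 2) ^ k ≤ bb (zz ξ) N k

/-- LZ-4: the boxes. -/
def Stm4 : Prop := ∀ (d : ℕ) [NeZero d],
  (∀ w : List Bool, MeasurableSet (RR w : Set (E d)) ∧
    volume (RR w : Set (E d)) = ENNReal.ofReal ((1 / 2) ^ w.length) ∧
    (RR w : Set (E d)) = RR (false :: w) ∪ RR (true :: w) ∧
    Disjoint (RR (false :: w) : Set (E d)) (RR (true :: w))) ∧
  (∀ N, ∀ w ∈ words N, ∀ w' ∈ words N, w ≠ w' → Disjoint (RR w : Set (E d)) (RR w')) ∧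
  (∀ (w : List Bool) (ξ : E d),
    ∫ y in RR w, ch y ξ = Z (zz ξ) w * ∫ y in box 0 w.length, ch y ξ) ∧
  (∀ k N, k + 2 * d * d ≤ N → ∀ ξ ∈ AA d k, (1 / 2 : ℝ) ^ (N + 1) ≤ ‖∫ y in box 0 N, ch y ξ‖)

/-- LZ-H: the heat flow of cascades. -/
def StmH : Prop := ∀ (d : ℕ) [NeZero d], ∃ C : ℝ, 0 ≤ C ∧
  ∀ a : List Bool → ℝ, (∀ w, 0 ≤ a w) → (∀ w, a (false :: w) + a (true :: w) = 2 * a w) →
    ∀ (k N : ℕ) (M t : ℝ) (x : E d), k ≤ N → (∀ w ∈ words k, a w ≤ M) → 0 < t →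
      ((1 / 4) ^ (k / d + 1) ≤ t ∨ k = N) →
      ∑ w ∈ words N, a w * ∫ y in RR w, heat t (x - y) ≤ C * M

/-- LZ-5: lower bound for the Lorentz norm. -/
def Stm5 : Prop := ∀ (p q b : ℝ), 0 < p → 0 < q → 0 < b → ∃ c : ℝ, 0 < c ∧
  ∀ (d : ℕ) (g : E d → ℂ) (τ : ℝ) (K : Finset ℕ), 0 < τ →
    (∀ k ∈ K, ENNReal.ofReal (b * 2 ^ k) ≤ volume {ξ | τ * 2 ^ (-(k / p)) ≤ ‖g ξ‖}) →
    ENNReal.ofReal (c * τ ^ q * K.card) ≤ lorq p q g

/-- LZ-6: upper bound for the Lorentz norm. -/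
def Stm6 : Prop := ∀ (d : ℕ) [NeZero d] (α q : ℝ), 0 < α → 2 ≤ q → ∃ C : ℝ, 0 ≤ C ∧
  ∀ h : E d → ℂ, Continuous h → ∫⁻ ξ, ‖h ξ‖ₑ ^ 2 ≤ 1 →
    lor (2 * d / (2 * α + d)) q (fun ξ => (((2 * π * ‖ξ‖) ^ (-α) : ℝ) : ℂ) * h ξ) ≤
      ENNReal.ofReal C

/-- LZ-7: energy. -/
def Stm7 : Prop := ∀ (d : ℕ) [NeZero d] (μ : SignedMeasure (E d)), Bound (d : ℝ) 1 μ →
  Continuous (ft μ) ∧ ∫⁻ ξ, ‖ft μ ξ‖ₑ ^ 2 ≤ 1

/-- LZ-8: signed measures with a density. -/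
def Stm8 : Prop := ∀ (d : ℕ) (f : E d → ℝ), Measurable f → Integrable f →
  ∃ μ : SignedMeasure (E d), μ.totalVariation Set.univ = ENNReal.ofReal (∫ x, |f x|) ∧
    ∀ φ : E d → ℂ, Continuous φ → (∃ B, ∀ x, ‖φ x‖ ≤ B) → sint μ φ = ∫ x, (f x : ℂ) * φ x

end Pool.Agent.R244.LZ
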